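import Pool.Agent.Lib.MP_aa40d3_nt.OP.Sl
import Pool.Agent.Lib.MP_aa40d3_nt.GD.Lift

/-! Reduction to determinant one. -/

open Matrix

namespace Pool.Agent.GR.OP

open NP GC FB

variable {n r E : ℕ}

/-- Equal up to a root of unity. -/
def Rel (E : ℕ) (a b : GLr r) : Prop := ∃ c : ℂ, c ^ E = 1 ∧ b.val = c • a.val

theorem Rel.mul {a b a' b' : GLr r} (h : Rel E a b) (h' : Rel E a' b') :
    Rel E (a * a') (b * b') := by
  obtain ⟨c, h1, h2⟩ := h
  obtain ⟨d, h3, h4⟩ := h'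
  exact ⟨c * d, by rw [mul_pow, h1, h3, one_mul], by
    rw [Units.val_mul, Units.val_mul, h2, h4, smul_mul_smul_comm]⟩

theorem Rel.symm (hE : 0 < E) {a b : GLr r} (h : Rel E a b) : Rel E b a := by
  obtain ⟨c, h1, h2⟩ := h
  have h0 : c ≠ 0 := fun e => by simp [e, hE.ne'] at h1
  exact ⟨c⁻¹, by rw [inv_pow, h1, inv_one], by rw [h2, inv_smul_smul₀ h0]⟩

theorem Rel.inv (hE : 0 < E) {a b : GLr r} (h : Rel E a b) : Rel E a⁻¹ b⁻¹ := by
  obtain ⟨c, h1, h2⟩ := h.symm hE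
  refine ⟨c, h1, ?_⟩
  rw [← mul_one (b⁻¹).val, ← a.mul_inv, h2, smul_mul_assoc, mul_smul_comm, Units.inv_mul_cancel_left]

theorem Rel.qu (hE : 0 < E) {a b : GLr r} (h : Rel E a b) (ha : QU a.val) : QU b.val := by
  obtain ⟨c, h1, h2⟩ := h
  obtain ⟨E', k1, k2⟩ := ha.pow E
  exact ⟨E * E', Nat.mul_pos hE k1, by rwa [h2, pow_mul, smul_pow, h1, one_smul]⟩

theorem Rel.conj (hE : 0 < E) {a b : GLr r} (h : Rel E a b) (z : Mt r) :
    b.val * z * (b⁻¹).val = a.val * z * (a⁻¹).val := by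
  obtain ⟨c, -, h2⟩ := h.symm hE
  have e : (b⁻¹).val = c • (a⁻¹).val := by
    rw [← mul_one (b⁻¹).val, ← a.mul_inv, h2, smul_mul_assoc, mul_smul_comm,
      Units.inv_mul_cancel_left]
  rw [e, h2, mul_smul_comm, smul_mul_assoc, smul_mul_assoc]

theorem Rel.closure (hE : 0 < E) {g u : Fin n → GLr r} (h : ∀ a, Rel E (g a) (u a)) :
    ∀ γ ∈ Subgroup.closure (Set.range g), ∃ γ' ∈ Subgroup.closure (Set.range u), Rel E γ γ' := by
  intro γ hγ
  induction hγ using Subgroup.closure_induction with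
  | mem x hx =>
    obtain ⟨a, rfl⟩ := hx
    exact ⟨u a, Subgroup.subset_closure ⟨a, rfl⟩, h a⟩
  | one => exact ⟨1, one_mem _, 1, one_pow _, (one_smul _ _).symm⟩
  | mul x y _ _ hx hy =>
    obtain ⟨x', k1, k2⟩ := hx
    obtain ⟨y', k3, k4⟩ := hy
    exact ⟨_, mul_mem k1 k3, k2.mul k4⟩
  | inv x _ hx =>
    obtain ⟨x', k1, k2⟩ := hx
    exact ⟨_, inv_mem k1, k2.inv hE⟩

theorem Rel.finite (hE : 0 < E) {g u : Fin n → GLr r} (h : ∀ a, Rel E (g a) (u a))
    (hf : Finite (Subgroup.closure (Set.range u))) : Finite (Subgroup.closure (Set.range g)) := by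
  have h1 : (Set.image2 (fun (c : ℂ) (γ : GLr r) => c • γ.val)
      (Polynomial.nthRootsFinset E (1 : ℂ)) (Subgroup.closure (Set.range u))).Finite :=
    Set.Finite.image2 _ (Finset.finite_toSet _) hf
  refine Set.Finite.of_finite_image (f := Units.val) (h1.subset ?_) Units.val_injective.injOn
  rintro _ ⟨γ, hγ, rfl⟩
  obtain ⟨γ', k1, k2⟩ := Rel.closure hE h γ hγ
  obtain ⟨c, k3, k4⟩ := k2.symm hE
  exact ⟨c, (Polynomial.mem_nthRootsFinset hE 1).2 k3, γ', k1, k4.symm⟩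

theorem Rel.pair (hE : 0 < E) {g u : Fin n → GLr r} (h : ∀ a, Rel E (g a) (u a))
    {M : Finset (Fin n)} {L0 : List (Fin n)}
    (hp : PairH Mo (fun x => QU x.1.val) (L0.map (mkd M g))) :
    PairH Mo (fun x => QU x.1.val) (L0.map (mkd M u)) := fun A x y B hl hm => by
  obtain ⟨l', k1, k2⟩ := Hur.lift_rel (V := fun a b : GLr r × Mk => a.2 = b.2 ∧ Rel E a.1 b.1)
    (fun x u y w hx hy => ⟨⟨by simp [hx.1, hy.1], ((hy.2.inv hE).mul hx.2).mul hy.2⟩,
      ⟨by simp [hx.1, hy.1], (hx.2.mul hy.2).mul (hx.2.inv hE)⟩⟩)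
    (l := L0.map (mkd M g)) (by
      rw [List.forall₂_map_left_iff, List.forall₂_map_right_iff]
      exact List.forall₂_same.2 fun a _ => ⟨rfl, h a⟩) hl
  obtain ⟨A', B', x', y', rfl, -, hx, hy, -⟩ := lift_split₂ k2
  exact (hx.2.mul hy.2).qu hE (hp A' x' y' B' k1
    (hm.imp (fun e => hx.1.trans e) fun e => hy.1.trans e))

theorem exists_rel [NeZero r] {g : Fin n → GLr r} (h : ∀ a, QU (g a).val) :
    ∃ (E : ℕ) (u : Fin n → GLr r), 0 < E ∧ ∀ a, (u a).val.det = 1 ∧ Rel E (g a) (u a) := by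
  obtain ⟨m, hm, hm'⟩ := isOfFinOrder_iff_pow_eq_one.1
    (IsOfFinOrder.pi (x := fun a => (g a).val.det) fun a => (h a).det)
  have k : ∀ a, ∃ u : GLr r, u.val.det = 1 ∧ Rel (r * m) (g a) u := fun a => by
    obtain ⟨c, hc⟩ := IsAlgClosed.exists_pow_nat_eq ((g a).val.det)⁻¹ (NeZero.pos r)
    have h1 : (c • (g a).val).det = 1 := by
      rw [det_smul, Fintype.card_fin, hc]
      exact inv_mul_cancel₀ ((isUnit_iff_isUnit_det _).1 (g a).isUnit).ne_zero
    obtain ⟨u, hu⟩ := (isUnit_iff_isUnit_det (c • (g a).val)).2 (h1 ▸ isUnit_one)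
    refine ⟨u, hu ▸ h1, c, ?_, hu⟩
    rw [pow_mul, hc, inv_pow, show (g a).val.det ^ m = 1 from congrFun hm' a, inv_one]
  choose u hu using k
  exact ⟨r * m, u, Nat.mul_pos (NeZero.pos r) hm, hu⟩

theorem scl_conj {G : Type} [Group G] (σ : G →* Mt r) (γ x : G) (h : ¬ Scl (σ x)) :
    ¬ Scl (σ (γ * x * γ⁻¹)) := fun k => h (Scl.conj σ γ (by rwa [map_mul, map_mul] at k))

theorem group_op (r : ℕ) [NeZero r] : ∃ k : ℕ, ∀ (n : ℕ) (Mov : Finset (Fin n))
    (L0 : List (Fin n)) (g : Fin n → GLr r) (o : Fin n), L0.Nodup → (∀ a, a ∈ L0) →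
    (∀ a, QU (g a).val) → AdI (incl (Subgroup.closure (Set.range g))) → ¬ Scl (g o).val →
    (∀ a ∈ Mov, ¬ Scl (g a).val) → o ∉ Mov → k ≤ Mov.card →
    PairH Mo (fun x => QU x.1.val) (L0.map (mkd {o} g)) →
    Finite (Subgroup.closure (Set.range g)) := by
  obtain ⟨k, hk⟩ := finite_op r
  refine ⟨k, fun n Mov L0 g o h0 hall hq hA ho hM hoM hc hp => ?_⟩
  obtain ⟨E, u, hE, hu⟩ := exists_rel hq
  refine Rel.finite hE (fun a => (hu a).2) ?_
  have hs : ∀ a, ¬ Scl (g a).val → ¬ Scl (u a).val := fun a h ⟨c, e⟩ => by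
    obtain ⟨d, -, e'⟩ := (hu a).2.symm hE
    exact h ⟨d * c, by rw [e', e, smul_smul]⟩
  set Γ := Subgroup.closure (Set.range u) with hΓ
  let g' : Fin n → Γ := fun a => ⟨u a, Subgroup.subset_closure ⟨a, rfl⟩⟩
  have hg : Subgroup.closure (Set.range g') = ⊤ := by
    apply Subgroup.map_injective Γ.subtype_injective
    rw [MonoidHom.map_closure, ← Set.range_comp, ← MonoidHom.range_eq_map, Subgroup.range_subtype]
    rfl
  refine hk n Mov L0 Γ g' (incl Γ) (slW r) (fun x => ¬ Scl (incl Γ x)) o h0 hall hg (incl_inj Γ)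
    (fun x => ?_) (AdI.typ fun Z hZ => hA Z fun γ z hz => ?_) (scl_conj _) (fun _ h => h)
    (fun a ha => hs a (hM a ha)) hoM hc (fun x y hx hy => test_sl ?_ hy) ?_
  · have hx : x ∈ Subgroup.closure (Set.range g') := hg ▸ Subgroup.mem_top x
    induction hx using Subgroup.closure_induction with
    | mem y hy =>
      obtain ⟨a, rfl⟩ := hy
      exact (hu a).1
    | one => rw [map_one, det_one]
    | mul y z _ _ hy hz => rw [map_mul, det_mul, hy, hz, one_mul]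
    | inv y _ hy =>
      have h3 := congrArg det (rep_mul_inv (incl Γ) y)
      rwa [det_mul, hy, one_mul, det_one] at h3
  · obtain ⟨γ', k1, k2⟩ := Rel.closure hE (fun a => (hu a).2) γ γ.2
    exact (k2.conj hE z) ▸ hZ ⟨γ', k1⟩ z hz
  · obtain ⟨c, rfl⟩ := isConj_iff.1 hx
    exact scl_conj _ _ _ (hs o ho)
  · refine PairH.of_map (P := Mo) (Q := fun x => QU x.1.val)
      (Γ.subtype.prodMap (MonoidHom.id Mk)) ?_
    rw [List.map_map]
    exact Rel.pair hE (fun a => (hu a).2) hp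

end Pool.Agent.GR.OP
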