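import Pool.Agent.Lib.MP_aa40d3_nt.OP.Stmt
import Pool.Agent.Lib.MP_aa40d3_nt.OP.Lift
import Pool.Agent.Lib.MP_aa40d3_nt.NP.Pts

/-! The dictionary between the system and its monodromy group. -/

open Polynomial Matrix Set Filter Topology
open scoped Matrix.Norms.Operator

namespace Pool.Agent.GR.OP

open NP

variable {n r : ℕ}

theorem AdIrr.aff {t t' : Fin n → ℂ} {c b : ℂ} (hc : c ≠ 0) (ht : ∀ i, t i = c * t' i + b)
    {A : Fin n → Matrix (Fin r) (Fin r) ℂ} (h : AdIrr t A) : AdIrr t' A := by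
  intro W' hW'
  have : Invertible c := invertibleOfNonzero hc
  let φ : ℂ[X] →+* ℂ[X] := compRingHom (C c * X + C b)
  have hφ : ∀ q, φ q = q.comp (C c * X + C b) := fun q => rfl
  have hψ : ∀ q : ℂ[X], algEquivCMulXAddC c b q = φ q := fun q => by
    rw [algEquivCMulXAddC_apply, hφ, comp_eq_aeval]
  have hφi : Function.Injective φ := fun p q e =>
    (algEquivCMulXAddC c b).injective (by rw [hψ, hψ, e])
  let M : Matrix (Fin r) (Fin r) ℂ[X] →+* Matrix (Fin r) (Fin r) ℂ[X] := φ.mapMatrix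
  have hM : ∀ Φ x y, M Φ x y = φ (Φ x y) := fun Φ x y => rfl
  have hsm : ∀ (q : ℂ[X]) Φ, M (q • Φ) = φ q • M Φ := fun q Φ => Matrix.ext fun x y => by
    rw [hM, Matrix.smul_apply, Matrix.smul_apply, smul_eq_mul, smul_eq_mul, map_mul, hM]
  have hs : ∀ Ψ, ∃ Φ, M Φ = Ψ := fun Ψ =>
    ⟨Ψ.map (algEquivCMulXAddC c b).symm, Matrix.ext fun x y => by
      rw [hM, Matrix.map_apply, ← hψ, AlgEquiv.apply_symm_apply]⟩
  have h2 : (C c : ℂ[X]) • M (pm t A) = (C c ^ n : ℂ[X]) • pm t' A :=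
    Matrix.ext fun x y => aff_pm ht A x y
  have h3 : ∀ Φ, (M Φ).map derivative = (C c : ℂ[X]) • M (Φ.map derivative) := fun Φ =>
    Matrix.ext fun x y => by
      rw [Matrix.map_apply, Matrix.smul_apply, hM, hM, Matrix.map_apply, hφ, hφ, derivative_comp,
        derivative_add, derivative_C, derivative_C_mul_X, add_zero, smul_eq_mul]
  let W : Submodule ℂ[X] (Matrix (Fin r) (Fin r) ℂ[X]) :=
    { carrier := {Φ | M Φ ∈ W'}
      add_mem' := fun {u v} hu hv => by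
        change M (u + v) ∈ W'
        rw [map_add]
        exact W'.add_mem hu hv
      zero_mem' := by
        change M 0 ∈ W'
        rw [map_zero]
        exact W'.zero_mem
      smul_mem' := fun q u hu => by
        change M (q • u) ∈ W'
        rw [hsm]
        exact W'.smul_mem _ hu }
  have hmem : ∀ Φ, Φ ∈ W ↔ M Φ ∈ W' := fun Φ => Iff.rfl
  refine (h W fun Φ hΦ => ?_).imp (fun k Ψ hΨ => ?_) fun k Ψ hΨ => ?_
  · rw [hmem] at hΦ ⊢
    have h1 := W'.smul_mem (C c⁻¹) (W'.smul_mem (C c ^ n) (hW' _ hΦ))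
    have e : (C c ^ n : ℂ[X]) • (dl t' • (M Φ).map derivative - (pm t' A * M Φ - M Φ * pm t' A)) =
        (C c : ℂ[X]) • M (dl t • Φ.map derivative - (pm t A * Φ - Φ * pm t A)) := by
      rw [map_sub, map_sub, map_mul, map_mul, hsm, hφ, aff_dl ht, h3, smul_sub, smul_sub, smul_sub,
        smul_sub, ← Matrix.smul_mul, ← Matrix.smul_mul (C c), ← Matrix.mul_smul,
        ← Matrix.mul_smul _ (C c), h2, smul_smul, smul_smul, smul_smul, mul_comm (C c)]
    rwa [e, smul_smul, ← map_mul, inv_mul_cancel₀ hc, map_one, one_smul] at h1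
  · obtain ⟨Φ, rfl⟩ := hs Ψ
    obtain ⟨q, hq⟩ := k Φ hΨ
    exact ⟨φ q, by rw [hq, hsm, map_one]⟩
  · obtain ⟨Φ, rfl⟩ := hs Ψ
    obtain ⟨q, h0, hq⟩ := k Φ (hφi ((AddMonoidHom.map_trace φ Φ).trans (hΨ.trans (map_zero φ).symm)))
    exact ⟨φ q, fun e => h0 (hφi (e.trans (map_zero φ).symm)), hsm q Φ ▸ hq⟩

theorem AdIrr.irred [Nontrivial (Fin r)] {t : Fin n → ℂ} {A : Fin n → Matrix (Fin r) (Fin r) ℂ}
    (h : AdIrr t A) : Irred t A := by
  classical
  intro W hW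
  refine (h (Submodule.pi Set.univ fun _ => W) fun Φ hΦ i _ => ?_).imp (fun k => ?_) fun k v => ?_
  · have e : (dl t • Φ.map derivative - (pm t A * Φ - Φ * pm t A)) i =
        ((dl t • fun a => derivative (Φ i a)) + Φ i ᵥ* pm t A) - ∑ j, pm t A i j • Φ j := by
      funext a
      simp [Matrix.mul_apply, vecMul, dotProduct, Finset.sum_apply]
      ring
    rw [e]
    exact W.sub_mem (hW _ (hΦ i trivial)) (W.sum_mem fun j _ => W.smul_mem _ (hΦ j trivial))
  · refine eq_bot_iff.2 fun l hl => funext fun j => ?_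
    obtain ⟨c, hc⟩ := k (Matrix.of fun _ => l) fun _ _ => hl
    obtain ⟨i, hi⟩ := exists_ne j
    simpa [hi] using congrFun (congrFun hc i) j
  · have k1 : ∀ j, ∃ q : ℂ[X], q ≠ 0 ∧ q • (Pi.single j 1 : Fin r → ℂ[X]) ∈ W := fun j => by
      obtain ⟨i, hi⟩ := exists_ne j
      obtain ⟨q, h0, hq⟩ := k (Matrix.single i j 1) (Matrix.trace_single_eq_of_ne i j 1 hi)
      refine ⟨q, h0, ?_⟩
      have e : q • (Pi.single j 1 : Fin r → ℂ[X]) = (q • Matrix.single i j (1 : ℂ[X])) i := by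
        funext a
        simp [Matrix.single_apply, Pi.single_apply, eq_comm]
      exact e ▸ hq i trivial
    choose q h0 hq using k1
    refine ⟨∏ j, q j, Finset.prod_ne_zero_iff.2 fun j _ => h0 j, ?_⟩
    rw [pi_eq_sum_univ' v, Finset.smul_sum]
    refine W.sum_mem fun j _ => ?_
    rw [smul_comm, ← Finset.prod_erase_mul _ _ (Finset.mem_univ j), mul_smul]
    exact W.smul_mem _ (W.smul_mem _ (hq j))

theorem primW_sat {t : Fin n → ℂ} {A : Fin n → Mat r} {U : Set ℂ} (hU : IsOpen U)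
    {Y : ℂ → Mat r} (hY : ∀ x ∈ U, (∀ i, x ≠ t i) ∧ (Y x).det ≠ 0 ∧
      HasDerivAt Y (sys t A x * Y x) x) (Z : Submodule ℂ (Mat r)) {f : ℂ[X]}
    {Φ : Matrix (Fin r) (Fin r) ℂ[X]} (hf : f ≠ 0) (hΦ : f • Φ ∈ primW U Y Z) :
    Φ ∈ primW U Y Z := by
  have hu : ∀ y ∈ U, IsUnit (Y y) := fun y hy =>
    (Matrix.isUnit_iff_isUnit_det _).2 (hY y hy).2.1.isUnit
  intro x hx
  set z : ℂ → Mat r := fun y => Ring.inverse (Y y) * (Φ.map (eval y) * Y y) with hz
  have hd := (hY x hx).2.2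
  have h2 : HasDerivAt (fun y => (Φ.map (eval y) : Mat r)) ((Φ.map derivative).map (eval x)) x :=
    hasDerivAt_mat.2 fun a b => (Φ a b).hasDerivAt x
  have h3 : ContinuousAt z x :=
    ((hd.differentiableAt.inverse (hu x hx)).mul
      (h2.differentiableAt.mul hd.differentiableAt)).continuousAt
  have h4 : ∀ᶠ y in 𝓝[≠] x, f.eval y ≠ 0 := by
    have := (finite_setOfPred_isRoot hf).compl_mem_cofinite
    exact nhdsNE_le_cofinite x this
  have h5 : ∀ᶠ y in 𝓝[≠] x, z y ∈ (Z : Set (Mat r)) := by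
    filter_upwards [h4, mem_nhdsWithin_of_mem_nhds (hU.mem_nhds hx)] with y hy hyU
    obtain ⟨w, hw, e⟩ := hΦ y hyU
    have e1 : (f • Φ).map (eval y) = f.eval y • Φ.map (eval y) := by
      ext a b
      simp
    have e2 : Φ.map (eval y) * Y y = Y y * ((f.eval y)⁻¹ • w) := by
      rw [mul_smul_comm, ← e, e1, smul_mul_assoc, smul_smul, inv_mul_cancel₀ hy, one_smul]
    simp only [hz]
    rw [e2, Ring.inverse_mul_cancel_left _ _ (hu y hyU)]
    exact Submodule.smul_mem _ _ hw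
  refine ⟨z x, Z.closed_of_finiteDimensional.mem_of_tendsto
    (h3.tendsto.mono_left nhdsWithin_le_nhds) h5, ?_⟩
  simp only [hz]
  rw [Ring.mul_inverse_cancel_left _ _ (hu x hx)]

theorem AdIrr.adI [NeZero r] {t : Fin n → ℂ} {A : Fin n → Mat r} (h : AdIrr t A)
    {g : Fin n → (Mat r)ˣ} (hζ : ∀ a, QU (g a).val) {U : Set ℂ} (hU : IsOpen U) {x₀ : ℂ}
    (hx₀ : x₀ ∈ U) {Y : ℂ → Mat r} (hY0 : Y x₀ = 1) (hY : ∀ x ∈ U, (∀ i, x ≠ t i) ∧
      (Y x).det ≠ 0 ∧ HasDerivAt Y (sys t A x * Y x) x) (he : ExtProp t g U Y) :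
    AdI (incl (Subgroup.closure (Set.range g))) := by
  intro Z hZ
  refine (h _ (primt_stable hU hY Z)).imp (fun k z hz => ?_) fun k z hz => ?_
  · obtain ⟨Φ, hΦ, c, hc0, hΦc⟩ := fact_ontoQ hζ hx₀ (hY _ hx₀).1 hY0 he
      (fun γ hγ => hZ ⟨γ, hγ⟩) hz
    obtain ⟨q, hq⟩ := k Φ hΦ
    refine ⟨c⁻¹ * q.eval x₀, ?_⟩
    rw [mul_smul, eq_inv_smul_iff₀ hc0, ← hΦc, hq]
    ext a b
    by_cases hab : a = b <;> simp [hab]
  · obtain ⟨q, h0, hq⟩ := k (z.map C) (by rw [← AddMonoidHom.map_trace C z, hz, map_zero])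
    obtain ⟨w, hw, e⟩ := primW_sat hU hY Z h0 hq x₀ hx₀
    rw [hY0, mul_one, one_mul] at e
    rwa [show z = w from e ▸ Matrix.ext fun a b => by simp]

theorem scl_of_comm {x : Mt r} (h : ∀ z, x * z = z * x) : Scl x := by
  obtain ⟨c, hc⟩ := Matrix.mem_range_scalar_of_commute_single (M := x) fun i j _ => (h _).symm
  exact ⟨c, by rw [← hc, scalar_apply, smul_one_eq_diagonal]⟩

theorem Ram.not_scl [NeZero r] {t : Fin n → ℂ} (ht : Function.Injective fun i => (t i).re)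
    (A : Fin n → Mat r) {H : ℝ} (hb : InBox (pp t) H)
    (hY : ∀ y : ℂ, (∀ j, y.im < (t j).im) → (T t A (cpt (-H, -H)) y).det ≠ 0) {i : Fin n}
    (h : Ram (A i)) : ¬ Scl (vt (TT t A) (pp t) H i).val := by
  rintro ⟨c, hc⟩
  obtain ⟨d, hd⟩ := scl_of_comm (x := NormedSpace.exp ((2 * Real.pi * Complex.I : ℂ) • A i))
    fun z => by
      have := comm_exp ht A hb (z.map C) i fun y hy => ⟨Ring.inverse (T t A (cpt (-H, -H)) y) *
        ((z.map C).map (eval y) * T t A (cpt (-H, -H)) y), by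
          rw [hc, smul_mul_assoc, mul_smul_comm, one_mul, mul_one], by
          rw [Ring.mul_inverse_cancel_left _ _
            ((Matrix.isUnit_iff_isUnit_det _).2 (hY y hy).isUnit)]⟩
      rwa [show (z.map C).map (eval (t i)) = z from Matrix.ext fun a b => by simp] at this
  exact h d hd

end Pool.Agent.GR.OP
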