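import Pool.Agent.Lib.MP_aa40d3_nt.OP.Tra
import Pool.Agent.Lib.MP_aa40d3_nt.NP.Qu

/-! The lemma of Goursat with several exponents. -/

open Matrix

namespace Pool.Agent.GR.OP

open NP

variable {r : ℕ} {G : Type} [Group G]

theorem nil_of_trace {z : Mt r} (h : ∀ k, 0 < k → k ≤ r → (z ^ k).trace = 0) : IsNilpotent z := by
  have := unip_of_trace (x := z + 1) fun k hk => by
    rw [(Commute.one_right z).add_pow, trace_sum, Finset.sum_eq_single 0]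
    · simp
    · intro j hj h0
      rw [one_pow, mul_one, ← nsmul_eq_mul', trace_smul,
        h j (Nat.pos_of_ne_zero h0) ((Nat.lt_succ_iff.1 (Finset.mem_range.1 hj)).trans hk),
        smul_zero]
    · simp
  rwa [add_sub_cancel_right] at this

/-- A nilpotent member whose leading term is not nilpotent. -/
def Test2 (W : Submodule ℂ (Mt r)) (x y : Mt r) : Prop :=
  ∃ E ∈ W, ∃ j, 0 < j ∧ adL E ^ (j + 1) = 0 ∧ ¬ IsNilpotent (x * (adL E ^ j) y)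

theorem Test.two [NeZero r] {W : Submodule ℂ (Mt r)} {x y : Mt r} (h : Test W x y) :
    Test2 W x y := by
  obtain ⟨E, hE, j, h1, h2, h3⟩ := h
  refine ⟨E, hE, j, h1, h2, fun ⟨k, hk⟩ => h3 (k + 1) k.succ_pos ?_⟩
  rw [pow_succ, hk, zero_mul, trace_zero]

theorem Test2.tw {W : Submodule ℂ (Mt r)} {x y : Mt r} (τ : ℂ ≃+* ℂ) (h : Test2 W x y) :
    Test2 (twW τ W) (x.map τ) (y.map τ) := by
  obtain ⟨E, hE, j, hj, h1, h2⟩ := h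
  refine ⟨E.map τ, map_twW.2 hE, j, hj, adL_tw0 τ h1, fun h3 => h2 ?_⟩
  rw [adL_tw, ← Matrix.map_mul] at h3
  exact mp_mp τ (x * (adL E ^ j) y) ▸ h3.map τ.symm.mapMatrix

/-- The properties of the space of infinitesimal pairs. -/
structure Inf (σ₁ σ₂ : G →* Mt r) (N : Subgroup G) (x₁ y₁ x₂ y₂ : Mt r) (l b : ℕ)
    (𝔤 : Submodule ℂ (Mt r × Mt r)) : Prop where
  inv : ∀ γ, ∀ p ∈ 𝔤, (AdR σ₁ γ p.1, AdR σ₂ γ p.2) ∈ 𝔤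
  log : ∀ v, Chr v → ∀ w ∈ N, ∀ X₁ X₂, Lg v (AdR σ₁ w) (adL X₁) → Lg v (AdR σ₂ w) (adL X₂) →
    (X₁, X₂) ∈ 𝔤
  t₁ : ∀ p ∈ 𝔤, ∀ j j', adL p.1 ^ (j + 1) = 0 → adL p.2 ^ (j' + 1) = 0 → j' * b < j * l →
    ((x₁ * (adL p.1 ^ j) y₁) ^ l).trace = 0
  t₂ : ∀ p ∈ 𝔤, ∀ j j', adL p.1 ^ (j + 1) = 0 → adL p.2 ^ (j' + 1) = 0 → j * l < j' * b →
    ((x₂ * (adL p.2 ^ j') y₂) ^ b).trace = 0
  rel : ∀ p ∈ 𝔤, ∀ U : Submodule ℂ (Mt r × Mt r),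
    (∀ γ, ∀ q ∈ U, (AdR σ₁ γ q.1, AdR σ₂ γ q.2) ∈ U) → ∀ q ∈ U, (adL p.1 q.1, adL p.2 q.2) ∈ U

theorem exists_inf {σ₁ σ₂ : G →* Mt r} {x₁ y₁ x₂ y₂ : Mt r} {l b : ℕ} (N : Subgroup G)
    [hN : N.Normal]
    (h : ∀ w ∈ N, ((x₁ * AdR σ₁ w y₁) ^ l).trace = ((x₂ * AdR σ₂ w y₂) ^ b).trace) :
    ∃ 𝔤, Inf σ₁ σ₂ N x₁ y₁ x₂ y₂ l b 𝔤 := by
  obtain ⟨A₁, _, _, _, ⟨u₁⟩⟩ := exists_tow (Module.End ℂ (Mt r)) l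
  obtain ⟨A₂, _, _, _, ⟨u₂⟩⟩ := exists_tow (Module.End ℂ (Mt r)) b
  obtain ⟨F₁, hF₁⟩ := u₁.ev (Mt r) (LinearMap.mulLeft ℂ x₁ ∘ₗ LinearMap.applyₗ y₁)
  obtain ⟨F₂, hF₂⟩ := u₂.ev (Mt r) (LinearMap.mulLeft ℂ x₂ ∘ₗ LinearMap.applyₗ y₂)
  let ρ := ((u₁.P.comp (AdR σ₁)).prod (u₂.P.comp (AdR σ₂))).prod ((AdR σ₁).prod (AdR σ₂))
  let δ := ((u₁.d ∘ₗ adL).prodMap (u₂.d ∘ₗ adL)).prod
    ((adL (r := r)).prodMap (adL (r := r)))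
  let S := (escSp ρ N).toSubalgebra (Submodule.subset_span ⟨1, N.one_mem, map_one ρ⟩)
    fun _ _ => escSp_mul ρ N
  have hS : ∀ K : Submodule ℂ _, (∀ w ∈ N, ρ w ∈ K) → ∀ s ∈ S, s ∈ K := fun K hK s hs =>
    Submodule.span_le.2 (by rintro _ ⟨w, hw, rfl⟩; exact hK w hw) hs
  have hSm : ∀ w ∈ N, ρ w ∈ S := fun w hw => Submodule.subset_span ⟨w, hw, rfl⟩
  have hf : ∀ s ∈ S, (F₁ s.1.1).trace = (F₂ s.1.2).trace := fun s hs =>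
    hS (LinearMap.eqLocus
      (traceLinearMap _ ℂ ℂ ∘ₗ F₁ ∘ₗ LinearMap.fst ℂ _ _ ∘ₗ LinearMap.fst ℂ _ _)
      (traceLinearMap _ ℂ ℂ ∘ₗ F₂ ∘ₗ LinearMap.snd ℂ _ _ ∘ₗ LinearMap.fst ℂ _ _))
      (fun w hw => by
        change (F₁ (u₁.P _)).trace = (F₂ (u₂.P _)).trace
        rw [hF₁, hF₂]
        exact h w hw) s hs
  have hpow : ∀ p, δ p ∈ S → ∀ k : ℕ,
      (F₁ (u₁.d (adL p.1) ^ k)).trace = (F₂ (u₂.d (adL p.2) ^ k)).trace :=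
    fun p hp k => hf _ (S.pow_mem hp k)
  refine ⟨(Subalgebra.toSubmodule S).comap δ, fun γ p hp => ?_, fun v hv w hw X₁ X₂ l₁ l₂ => ?_,
    fun p hp j j' n₁ n₂ hlt => tow_test u₁ hF₁ n₁ ?_,
    fun p hp j j' n₁ n₂ hlt => tow_test u₂ hF₂ n₂ ?_, fun p hp U hU q hq => ?_⟩
  · have k1 := hS ((Subalgebra.toSubmodule S).comap
      (LinearMap.mulRight ℂ (ρ γ⁻¹) ∘ₗ LinearMap.mulLeft ℂ (ρ γ))) (fun w hw => by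
        change ρ γ * ρ w * ρ γ⁻¹ ∈ S
        rw [← map_mul, ← map_mul]
        exact hSm _ (hN.conj_mem w hw γ)) _ hp
    have k2 : ∀ σ : G →* Mt r, AdR σ γ * AdR σ γ⁻¹ = 1 := fun σ => by
      rw [← map_mul, mul_inv_cancel, map_one]
    have e : ρ γ * δ p * ρ γ⁻¹ = δ (AdR σ₁ γ p.1, AdR σ₂ γ p.2) :=
      Prod.ext (Prod.ext ((u₁.cj _ _ _ (k2 σ₁)).trans (congrArg u₁.d (AdR_adL σ₁ γ p.1)))
        ((u₂.cj _ _ _ (k2 σ₂)).trans (congrArg u₂.d (AdR_adL σ₂ γ p.2))))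
        (Prod.ext (AdR_adL σ₁ γ p.1) (AdR_adL σ₂ γ p.2))
    change δ _ ∈ S
    rw [← e]
    exact k1
  · obtain ⟨q, hq⟩ := (((u₁.lg v hv _ _ l₁).prod (u₂.lg v hv _ _ l₂)).prod (l₁.prod l₂)).poly
    change δ _ ∈ S
    rw [show δ (X₁, X₂) = Polynomial.aeval (ρ w) q from hq]
    exact (Algebra.adjoin_le_iff.2 (Set.singleton_subset_iff.2 (hSm _ hw)))
      (Polynomial.aeval_mem_adjoin_singleton ℂ _)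
  · rw [hpow p hp, pow_eq_zero_of_le hlt (u₂.nil _ _ n₂).1, map_zero, trace_zero]
  · rw [← hpow p hp, pow_eq_zero_of_le hlt (u₁.nil _ _ n₁).1, map_zero, trace_zero]
  · exact hS (U.comap (((LinearMap.applyₗ q.1).prodMap (LinearMap.applyₗ q.2)) ∘ₗ
      LinearMap.snd ℂ _ _)) (fun w _ => hU w q hq) (δ p) hp

theorem goursat2 {σ₁ σ₂ : G →* Mt r} {W₁ W₂ : Submodule ℂ (Mt r)} (i₁ : IrW σ₁ W₁)
    (i₂ : IrW σ₂ W₂) {x₁ y₁ x₂ y₂ : Mt r} (t₁ : Test2 W₁ x₁ y₁) (t₂ : Test2 W₂ x₂ y₂) {l b : ℕ}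
    (hl : 0 < l) (hb : 0 < b) (N : Subgroup G) [hN : N.Normal]
    (h : ∀ m, 0 < m → m ≤ r → ∀ w ∈ N,
      ((x₁ * AdR σ₁ w y₁) ^ (l * m)).trace = ((x₂ * AdR σ₂ w y₂) ^ (b * m)).trace)
    {v : ℂ → ℂ} (hv : Chr v) {w₀ : G} (hw : w₀ ∈ N) {X₁ X₂ : Mt r} (m₁ : X₁ ∈ W₁) (m₂ : X₂ ∈ W₂)
    (l₁ : Lg v (AdR σ₁ w₀) (adL X₁)) (l₂ : Lg v (AdR σ₂ w₀) (adL X₂)) (h0 : X₁ ≠ 0) :
    (∀ c (δ : ℂ), ∀ z' ∈ W₂, z' ≠ 0 → AdR σ₂ c z' = δ • z' →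
      ∃ z ∈ W₁, z ≠ 0 ∧ AdR σ₁ c z = δ • z) ∧ (b = 1 → r * r < l → ¬ NilW W₂) := by
  choose 𝔥 h𝔥 using fun m : {m // 0 < m ∧ m ≤ r} => exists_inf N (h m.1 m.2.1 m.2.2)
  obtain ⟨𝔤, h𝔤⟩ : ∃ 𝔤 : Submodule ℂ (Mt r × Mt r),
      ∀ p, p ∈ 𝔤 ↔ (p.1 ∈ W₁ ∧ p.2 ∈ W₂) ∧ ∀ m, p ∈ 𝔥 m :=
    ⟨W₁.prod W₂ ⊓ ⨅ m, 𝔥 m, fun p => by
      rw [Submodule.mem_inf, Submodule.mem_prod, Submodule.mem_iInf]⟩
  have hinv : ∀ γ, ∀ p ∈ 𝔤, (AdR σ₁ γ p.1, AdR σ₂ γ p.2) ∈ 𝔤 := fun γ p hp => by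
    obtain ⟨k1, k2⟩ := (h𝔤 p).1 hp
    exact (h𝔤 _).2 ⟨⟨i₁.1 γ _ k1.1, i₂.1 γ _ k1.2⟩, fun m => (h𝔥 m).inv γ p (k2 m)⟩
  have hX : (X₁, X₂) ∈ 𝔤 := (h𝔤 _).2 ⟨⟨m₁, m₂⟩, fun m => (h𝔥 m).log v hv w₀ hw _ _ l₁ l₂⟩
  obtain ⟨E₁, e₁, j₁, p₁, n₁, z₁⟩ := t₁
  obtain ⟨E₂, e₂, j₂, p₂, n₂, z₂⟩ := t₂
  have n0 : adL (0 : Mt r) ^ (0 + 1) = 0 := by simp
  have g₁ : ∀ z, (z, 0) ∈ 𝔤 → z = 0 := by
    rcases i₁.2 (𝔤.comap (LinearMap.inl ℂ _ _)) (fun z hz => ((h𝔤 _).1 hz).1.1)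
      (fun γ z hz => by simpa using hinv γ _ hz) with k | k
    · exact fun z hz => (Submodule.mem_bot ℂ).1 (k.le hz)
    · refine absurd (IsNilpotent.of_pow (m := l) (nil_of_trace fun m a1 a2 => ?_)) z₁
      rw [← pow_mul]
      exact (h𝔥 ⟨m, a1, a2⟩).t₁ (E₁, 0) (((h𝔤 _).1 (k.ge e₁)).2 _) j₁ 0 n₁ n0
        (by rw [zero_mul]; positivity)
  have g₂ : ∀ z, (0, z) ∈ 𝔤 → z = 0 := by
    rcases i₂.2 (𝔤.comap (LinearMap.inr ℂ _ _)) (fun z hz => ((h𝔤 _).1 hz).1.2)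
      (fun γ z hz => by simpa using hinv γ _ hz) with k | k
    · exact fun z hz => (Submodule.mem_bot ℂ).1 (k.le hz)
    · refine absurd (IsNilpotent.of_pow (m := b) (nil_of_trace fun m a1 a2 => ?_)) z₂
      rw [← pow_mul]
      exact (h𝔥 ⟨m, a1, a2⟩).t₂ (0, E₂) (((h𝔤 _).1 (k.ge e₂)).2 _) 0 j₂ n0 n₂
        (by rw [zero_mul]; positivity)
  have s₁ : ∀ z ∈ W₁, ∃ z', (z, z') ∈ 𝔤 := by
    rcases i₁.2 (𝔤.map (LinearMap.fst ℂ _ _)) (by rintro _ ⟨p, hp, rfl⟩; exact ((h𝔤 _).1 hp).1.1)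
      (by rintro γ _ ⟨p, hp, rfl⟩; exact ⟨_, hinv γ p hp, rfl⟩) with k | k
    · exact absurd ((Submodule.mem_bot ℂ).1 (k.le ⟨_, hX, rfl⟩)) h0
    · intro z hz
      obtain ⟨p, hp, rfl⟩ := k.ge hz
      exact ⟨p.2, hp⟩
  have s₂ : ∀ z' ∈ W₂, ∃ z, (z, z') ∈ 𝔤 := by
    rcases i₂.2 (𝔤.map (LinearMap.snd ℂ _ _)) (by rintro _ ⟨p, hp, rfl⟩; exact ((h𝔤 _).1 hp).1.2)
      (by rintro γ _ ⟨p, hp, rfl⟩; exact ⟨_, hinv γ p hp, rfl⟩) with k | k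
    · have k1 : X₂ = 0 := (Submodule.mem_bot ℂ).1 (k.le ⟨_, hX, rfl⟩)
      exact absurd (g₁ _ (k1 ▸ hX)) h0
    · intro z hz
      obtain ⟨p, hp, rfl⟩ := k.ge hz
      exact ⟨p.1, hp⟩
  refine ⟨fun c a z' hz' h1 h2 => ?_, fun hb1 hl2 hn => ?_⟩
  · obtain ⟨z, hz⟩ := s₂ z' hz'
    refine ⟨z, ((h𝔤 _).1 hz).1.1, fun e => h1 (g₂ _ (e ▸ hz)), sub_eq_zero.1 (g₁ _ ?_)⟩
    have := 𝔤.sub_mem (hinv c _ hz) (𝔤.smul_mem a hz)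
    simpa [h2] using this
  · subst hb1
    obtain ⟨E', hE'⟩ := s₁ E₁ e₁
    refine z₁ (IsNilpotent.of_pow (m := l) (nil_of_trace fun m a1 a2 => ?_))
    have k0 := ((h𝔤 _).1 hE').2 ⟨m, a1, a2⟩
    have k1 : ∀ z' ∈ W₂, (adL E' ^ (j₁ + 1)) z' = 0 := fun z' hz' => by
      obtain ⟨z, hz⟩ := s₂ z' hz'
      have k2 : ∀ k : ℕ, ((adL E₁ ^ k) z, (adL E' ^ k) z') ∈ 𝔤 := fun k => by
        induction k with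
        | zero => exact hz
        | succ k ih =>
          rw [pow_succ', pow_succ']
          exact (h𝔥 ⟨m, a1, a2⟩).rel (E₁, E') k0 𝔤 hinv ((adL E₁ ^ k) z, (adL E' ^ k) z') ih
      refine g₂ _ ?_
      have k3 := k2 (j₁ + 1)
      rwa [n₁] at k3
    have k2 : adL E' ^ (r * r + 1) = 0 := by
      have k3 := (hn E' ((h𝔤 _).1 hE').1.2 j₁ k1).charpoly_eq_X_pow_finrank
      have k4 := LinearMap.aeval_self_charpoly (adL E')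
      rw [k3, map_pow, Polynomial.aeval_X, Module.finrank_matrix] at k4
      rw [pow_succ, show adL E' ^ (r * r) = 0 by simpa using k4, zero_mul]
    rw [← pow_mul]
    refine (h𝔥 ⟨m, a1, a2⟩).t₁ (E₁, E') k0 j₁ _ n₁ k2 ?_
    calc r * r * (1 * m) < l * m := by rw [one_mul]; exact Nat.mul_lt_mul_of_pos_right hl2 a1
      _ ≤ j₁ * (l * m) := Nat.le_mul_of_pos_left _ p₁

end Pool.Agent.GR.OP
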