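import Pool.Agent.Lib.MP_aa40d3_nt.OP.Grp
import Pool.Agent.Lib.MP_aa40d3_nt.OP.Gou2

/-! The group theorem for one marked generator and an invariant Lie algebra. -/

open Matrix

namespace Pool.Agent.GR.OP

open NP GC FB

variable {r : ℕ} {G : Type} [Group G] {σ : G →* Mt r} {W : Submodule ℂ (Mt r)}

/-- The properties of the space that plays the part of the Lie algebra. -/
structure Typ2 (σ : G →* Mt r) (W : Submodule ℂ (Mt r)) : Prop where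
  irr : IrW σ W
  log : LogW σ W
  nil : NilW W
  rat : ∀ c, ∀ μ ∈ spectrum ℂ (σ c), ∀ ν ∈ spectrum ℂ (σ c), ∀ M : ℕ, (μ / ν) ^ M ≠ 1 →
    ∃ δ ∈ AdW σ W c, δ ^ M ≠ 1
  irrV : IrrR σ
  cen : ∀ z : Mt r, (∀ a ∈ W, a * z = z * a) → Scl z

theorem trace_nondeg (hI : IrrR σ) (B : Subalgebra ℂ (Mt r)) (hB : InvR σ B) {x : Mt r}
    (hx : x ∈ B) (h : ∀ y ∈ B, (x * y).trace = 0) : x = 0 := by
  have := wed_semi hI B hB
  obtain ⟨e, he, hs⟩ := IsSemisimpleRing.ideal_eq_span_idempotent (Ideal.span {(⟨x, hx⟩ : B)})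
  obtain ⟨a, ha⟩ := Ideal.mem_span_singleton'.1 (hs.ge (Ideal.mem_span_singleton_self e))
  obtain ⟨c, hc⟩ := Ideal.mem_span_singleton'.1 (hs.le (Ideal.mem_span_singleton_self _))
  have h1 : IsIdempotentElem e.val := congrArg Subtype.val he
  have h2 : e.val = 0 := h1.eq_zero_of_isNilpotent (nil_of_trace fun k hk _ => by
    obtain ⟨k, rfl⟩ := Nat.exists_eq_succ_of_ne_zero hk.ne'
    rw [h1.pow_succ_eq, ← ha, MulMemClass.coe_mul, trace_mul_comm, h _ a.2])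
  have h3 := congrArg Subtype.val hc
  rwa [MulMemClass.coe_mul, h2, mul_zero, eq_comm] at h3

theorem fin_normal [Group.FG G] (hi : Function.Injective σ) (hI : IrrR σ) (N : Subgroup G)
    [N.Normal] (h : ∀ x ∈ N, QU (σ x)) : Finite N := by
  obtain ⟨E, hE, hexp⟩ := exists_expo σ
  have hT : ((fun v : Fin r → ℂ => ∑ i, v i) ''
      (Set.pi Set.univ fun _ : Fin r => {z : ℂ | z ^ E = 1})).Finite := by
    refine Set.Finite.image _ (Set.Finite.pi fun _ => ?_)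
    refine (Polynomial.nthRootsFinset E (1 : ℂ)).finite_toSet.subset fun z hz => ?_
    exact (Polynomial.mem_nthRootsFinset hE 1).mpr hz
  have h1 : ∀ x ∈ N, (σ x).trace ∈ (fun v : Fin r → ℂ => ∑ i, v i) ''
      (Set.pi Set.univ fun _ : Fin r => {z : ℂ | z ^ E = 1}) := fun x hx => by
    obtain ⟨v, h1, -, h2⟩ := exists_eig (σ x)
    exact ⟨v, fun i _ => hexp x _ (h2 i) (qu_iff.1 (h x hx) _ (h2 i)), by simpa using (h1 1).symm⟩
  generalize (fun v : Fin r → ℂ => ∑ i, v i) ''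
    (Set.pi Set.univ fun _ : Fin r => {z : ℂ | z ^ E = 1}) = T at hT h1
  obtain ⟨B, hB⟩ := spR_alg σ N
  obtain ⟨b, hb, hsp, hli⟩ := exists_linearIndependent ℂ (σ '' (N : Set G))
  have : Finite b := hli.setFinite
  have : Finite T := hT
  have hm : ∀ (x : N) (m : b), (σ x * (m : Mt r)).trace ∈ T := fun x m => by
    obtain ⟨y, hy, e⟩ := hb m.2
    rw [← e, ← map_mul]
    exact h1 _ (N.mul_mem x.2 hy)
  refine Finite.of_injective (fun (x : N) (m : b) => (⟨_, hm x m⟩ : T)) fun x x' e => ?_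
  refine Subtype.ext (hi (sub_eq_zero.1 (trace_nondeg hI B
    (fun γ y hy => (hB _).2 (spR_inv N γ ((hB _).1 hy)))
    (B.sub_mem ((hB _).2 (burn_mem σ x.2)) ((hB _).2 (burn_mem σ x'.2))) fun m hm' => ?_)))
  replace hm' : m ∈ Submodule.span ℂ b := hsp ▸ (hB m).1 hm'
  induction hm' using Submodule.span_induction with
  | mem m hm' => rw [sub_mul, trace_sub, sub_eq_zero]; exact congrArg Subtype.val (congrFun e ⟨m, hm'⟩)
  | zero => simp
  | add u v _ _ hu hv => rw [Matrix.mul_add, trace_add, hu, hv, add_zero]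
  | smul c u _ hu => rw [Matrix.mul_smul, trace_smul, hu, smul_zero]

theorem lg_vec [NeZero r] {v : ℂ → ℂ} {T D : Module.End ℂ (Mt r)} (h : Lg v T D) {z : Mt r} {μ : ℂ}
    (hz : T z = μ • z) : D z = v μ • z := by
  have k1 := h.eig (z := (traceLinearMap _ ℂ ℂ).smulRight z) (μ := μ)
    (LinearMap.ext fun y => by
      simp only [Module.End.mul_apply, LinearMap.smulRight_apply, map_smul, hz,
        LinearMap.smul_apply]
      exact smul_comm _ _ _)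
  have k2 := LinearMap.congr_fun k1 1
  simp only [Module.End.mul_apply, LinearMap.smulRight_apply, map_smul, LinearMap.smul_apply,
    traceLinearMap_apply, trace_one, Fintype.card_fin] at k2
  rw [smul_comm] at k2
  exact smul_right_injective _ (Nat.cast_ne_zero.2 (NeZero.ne r)) k2

theorem Lg.pow {A : Type} [Ring A] [Algebra ℂ A] {v : ℂ → ℂ} (hv : Chr v) {T D : A} (h : Lg v T D)
    (m : ℕ) : Lg v (T ^ m) (m • D) := by
  induction m with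
  | zero => simpa using Lg.one hv
  | succ m ih =>
    rw [pow_succ, succ_nsmul]
    exact ih.mul hv ((Commute.refl T).pow_left m) h

theorem exists_log [NeZero r] (hd : ∀ x, (σ x).det = 1) (hL : LogW σ W) {w : G}
    (hq : ¬ QU (σ w)) : ∃ v, Chr v ∧ ∃ X ∈ W, X ≠ 0 ∧ Lg v (AdR σ w) (adL X) := by
  obtain ⟨μ, hμ, ν, hν, hf⟩ := exists_ratio (hd w) hq
  have hδ := (adS_ratio σ w hμ hν).2
  obtain ⟨v, hv, hvδ⟩ := exists_chr (adS_ne hδ) hf
  obtain ⟨X, hX⟩ := exists_lg v (rep_inv_mul σ w)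
  obtain ⟨X₁, m₁, e₁⟩ := hL v hv w X hX
  have l₁ := e₁ ▸ lg_ad hv σ hX
  refine ⟨v, hv, X₁, m₁, ?_, l₁⟩
  rintro rfl
  obtain ⟨z, hz, e⟩ := hδ
  have k1 := lg_vec l₁ ((AdR_apply σ w z).trans e)
  rw [map_zero, LinearMap.zero_apply, eq_comm, smul_eq_zero] at k1
  exact k1.elim hvδ hz

theorem fin_of_qu2 [NeZero r] [Group.FG G] (hi : Function.Injective σ) (hd : ∀ x, (σ x).det = 1)
    (hT : Typ2 σ W) (N : Subgroup G) [hN : N.Normal] (hs : ∃ x ∈ N, ¬ Scl (σ x))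
    (h : ∀ x ∈ N, QU (σ x)) : Finite G := by
  by_cases hq : ∀ w, QU (σ w)
  · have := fin_normal hi hT.irrV ⊤ fun x _ => hq x
    exact Finite.of_equiv _ Subgroup.topEquiv.toEquiv
  exfalso
  push Not at hq
  obtain ⟨w, hw⟩ := hq
  obtain ⟨v, hv, X, hX, h0, hl⟩ := exists_log hd hT.log hw
  have := fin_normal hi hT.irrV N h
  obtain ⟨m, hm, e⟩ := isOfFinOrder_iff_pow_eq_one.1
    (isOfFinOrder_of_finite ((MulAut.conjNormal : G →* MulAut N) w))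
  let U : Submodule ℂ (Mt r) := W ⊓ Subalgebra.toSubmodule (Subalgebra.centralizer ℂ (σ '' N))
  have hU : ∀ z, z ∈ U ↔ z ∈ W ∧ ∀ x ∈ N, σ x * z = z * σ x := fun z => by
    simp only [U, Submodule.mem_inf, Subalgebra.mem_toSubmodule, Subalgebra.mem_centralizer_iff,
      Set.forall_mem_image, SetLike.mem_coe]
  have hXU : X ∈ U := (hU X).2 ⟨hX, fun x hx => by
    have k1 := congrArg Subtype.val (DFunLike.congr_fun e ⟨x, hx⟩)
    rw [← map_pow, MulAut.conjNormal_apply] at k1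
    have k2 := lg_vec (map_pow (AdR σ) w m ▸ hl.pow hv m) (z := σ x) (μ := 1) (by
      rw [AdR_apply, ← map_mul, ← map_mul, k1, one_smul]
      rfl)
    rw [hv.one, zero_smul, ← Nat.cast_smul_eq_nsmul ℂ, LinearMap.smul_apply, smul_eq_zero,
      adL_apply, sub_eq_zero] at k2
    exact (k2.resolve_left (Nat.cast_ne_zero.2 hm.ne')).symm⟩
  rcases hT.irr.2 U inf_le_left (fun γ z hz => by
    obtain ⟨k1, k2⟩ := (hU z).1 hz
    refine (hU _).2 ⟨hT.irr.1 γ z k1, fun x hx => ?_⟩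
    have k3 := k2 _ (hN.conj_mem' x hx γ)
    rw [AdR_apply]
    calc σ x * (σ γ * z * σ γ⁻¹) = σ γ * (σ (γ⁻¹ * x * γ) * z) * σ γ⁻¹ := by
          rw [← mul_assoc, ← mul_assoc, ← mul_assoc, ← map_mul, ← map_mul]
          congr 3
          group
      _ = σ γ * z * σ γ⁻¹ * σ x := by
          rw [k3]
          simp only [mul_assoc, ← map_mul]
          rw [mul_inv_cancel, mul_one]) with k | k
  · exact h0 ((Submodule.mem_bot ℂ).1 (k.le hXU))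
  · obtain ⟨x, hx, hns⟩ := hs
    exact hns (hT.cen _ fun a ha => (((hU a).1 (k.ge ha)).2 x hx).symm)

theorem key2 [NeZero r] [Group.FG G] (hi : Function.Injective σ) (hd : ∀ x, (σ x).det = 1)
    (hT : Typ2 σ W) (τ : ℂ ≃+* ℂ) {l b : ℕ} (hl : r * r < l) (hb : 0 < b) (N : Subgroup G)
    [N.Normal] (hN : ∃ x ∈ N, ¬ Scl (σ x)) {x y : Mt r} (ht : Test2 W x y)
    (h : ∀ m, 0 < m → m ≤ r → ∀ w ∈ N,
      ((x * AdR σ w y) ^ (l * m)).trace = τ ((x * AdR σ w y) ^ (b * m)).trace)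
    (hG : ¬ Finite G) : b ≠ 1 ∧ ∀ c, ∀ δ ∈ AdW σ W c, τ δ ∈ AdS σ c := by
  obtain ⟨w, hw, hq⟩ : ∃ w ∈ N, ¬ QU (σ w) := by
    by_contra hc
    push Not at hc
    exact hG (fin_of_qu2 hi hd hT N hN hc)
  obtain ⟨v, hv, X₁, m₁, h0, l₁⟩ := exists_log hd hT.log hq
  obtain ⟨X', hX'⟩ := exists_lg v (rep_inv_mul (tw τ σ) w)
  obtain ⟨X₂, m₂, e₂⟩ := hT.log.tw τ v hv w X' hX'
  obtain ⟨k1, k2⟩ := goursat2 hT.irr (hT.irr.tw τ) ht (ht.tw τ) (Nat.zero_lt_of_lt hl) hb N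
    (fun m a1 a2 w hw => by rw [h m a1 a2 w hw, AdR_tw, ← Matrix.map_mul, tr_tw]) hv hw m₁ m₂ l₁
    (e₂ ▸ lg_ad hv _ hX') h0
  refine ⟨fun e => k2 e hl (hT.nil.tw τ), ?_⟩
  rintro c δ ⟨z, a1, a2, a3⟩
  obtain ⟨z', -, a4, a5⟩ := k1 c (τ δ) (z.map τ) (map_twW.2 a1) (fun e => a2 (by
    rw [← mp_mp τ z, e, Matrix.map_zero _ (map_zero _)])) (by rw [AdR_tw, a3, mp_smul])
  exact ⟨z', a4, AdR_apply σ c z' ▸ a5⟩

/-- One representation of bounded dimension carries all the trace identities. -/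
theorem ad_model (r l b : ℕ) : ∃ (A : Type) (_ : Ring A) (_ : Algebra ℂ A)
    (_ : FiniteDimensional ℂ A) (P : Module.End ℂ (Mt r) × Module.End ℂ (Mt r) →* A),
    ∀ x y x' y' : Mt r, ∃ K : Submodule ℂ A, ∀ T T', P (T, T') ∈ K ↔ ∀ m, 0 < m → m ≤ r →
      ((x * T y) ^ (l * m)).trace = ((x' * T' y') ^ (b * m)).trace := by
  choose A₁ i1 i2 i3 u₁ using fun m : Fin r => exists_tow (Module.End ℂ (Mt r)) (l * (m + 1))
  choose A₂ j1 j2 j3 u₂ using fun m : Fin r => exists_tow (Module.End ℂ (Mt r)) (b * (m + 1))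
  refine ⟨∀ m, A₁ m × A₂ m, inferInstance, inferInstance, inferInstance,
    MonoidHom.pi fun m => (u₁ m).some.P.prodMap (u₂ m).some.P, fun x y x' y' => ?_⟩
  choose F₁ hF₁ using fun m =>
    (u₁ m).some.ev (Mt r) (LinearMap.mulLeft ℂ x ∘ₗ LinearMap.applyₗ y)
  choose F₂ hF₂ using fun m =>
    (u₂ m).some.ev (Mt r) (LinearMap.mulLeft ℂ x' ∘ₗ LinearMap.applyₗ y')
  refine ⟨⨅ m, LinearMap.eqLocus
    (traceLinearMap _ ℂ ℂ ∘ₗ F₁ m ∘ₗ LinearMap.fst ℂ _ _ ∘ₗ LinearMap.proj m)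
    (traceLinearMap _ ℂ ℂ ∘ₗ F₂ m ∘ₗ LinearMap.snd ℂ _ _ ∘ₗ LinearMap.proj m), fun T T' => ?_⟩
  rw [Submodule.mem_iInf]
  have e : ∀ m : Fin r, (F₁ m ((u₁ m).some.P T)).trace = (F₂ m ((u₂ m).some.P T')).trace ↔
      ((x * T y) ^ (l * (m + 1))).trace = ((x' * T' y') ^ (b * (m + 1))).trace := fun m => by
    rw [hF₁, hF₂]
    rfl
  refine ⟨fun h m a1 a2 => ?_, fun h m => (e m).2 (h _ (Nat.succ_pos _) m.2)⟩
  obtain ⟨m, rfl⟩ := Nat.exists_eq_succ_of_ne_zero a1.ne'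
  exact (e ⟨m, a2⟩).1 (h _)

/-- The conclusion of the escape lemma for the homomorphism `ρ`. -/
def EscH (σ : G →* Mt r) (W : Submodule ℂ (Mt r)) {A : Type} [Ring A] [Algebra ℂ A]
    (ρ : G →* A) : Prop :=
  ∃ (x y : G) (N : Subgroup G), Test2 W (σ x) (σ y) ∧ N.Normal ∧ (∃ z ∈ N, ¬ Scl (σ z)) ∧
    ∀ K : Submodule ℂ A, (∀ w, QU (σ (x * (w * y * w⁻¹))) → ρ w ∈ K) → ∀ w ∈ N, ρ w ∈ K

theorem engine (r : ℕ) [NeZero r] : ∃ D : ℕ, ∀ (G : Type) [Group G] [Group.FG G] (σ : G →* Mt r)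
    (W : Submodule ℂ (Mt r)), Function.Injective σ → (∀ x, (σ x).det = 1) → Typ2 σ W →
    (∀ (τ : ℂ ≃+* ℂ) (A : Type) [Ring A] [Algebra ℂ A] [FiniteDimensional ℂ A]
      (P : Module.End ℂ (Mt r) × Module.End ℂ (Mt r) →* A), Module.finrank ℂ A ≤ D →
      EscH σ W (P.comp ((AdR σ).prod (AdR (tw τ σ))))) → Finite G := by
  obtain ⟨l, hl1, hl⟩ := Nat.exists_infinite_primes (r * r + 2)
  obtain ⟨A₀, _, _, _, P₀, h₀⟩ := ad_model r l 1
  obtain ⟨A₁, _, _, _, P₁, h₁⟩ := ad_model r l l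
  refine ⟨Module.finrank ℂ A₀ + Module.finrank ℂ A₁, fun G _ _ σ W hi hd hT he => ?_⟩
  by_contra hG
  have main : ∀ (τ : ℂ ≃+* ℂ) (b : ℕ) (A : Type) [Ring A] [Algebra ℂ A]
      (P : Module.End ℂ (Mt r) × Module.End ℂ (Mt r) →* A),
      (∀ x y x' y' : Mt r, ∃ K : Submodule ℂ A, ∀ T T', P (T, T') ∈ K ↔ ∀ m, 0 < m → m ≤ r →
        ((x * T y) ^ (l * m)).trace = ((x' * T' y') ^ (b * m)).trace) →
      EscH σ W (P.comp ((AdR σ).prod (AdR (tw τ σ)))) → 0 < b →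
      (∀ x, QU (σ x) → (σ x ^ l).trace = τ (σ x ^ b).trace) →
      b ≠ 1 ∧ ∀ c, ∀ δ ∈ AdW σ W c, τ δ ∈ AdS σ c := fun τ b A _ _ P hP hE hb h => by
    obtain ⟨x, y, N, k1, k2, k3, k4⟩ := hE
    obtain ⟨K, hK⟩ := hP (σ x) (σ y) ((σ x).map τ) ((σ y).map τ)
    refine key2 hi hd hT τ (l := l) (by omega) hb N k3 k1 (fun m a1 a2 w hw => ?_) hG
    have k5 := (hK _ _).1 (k4 K (fun w hw => (hK _ _).2 fun m _ _ => ?_) w hw) m a1 a2
    · rwa [AdR_tw, ← Matrix.map_mul, tr_tw] at k5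
    · have k6 := h ((x * (w * y * w⁻¹)) ^ m) (map_pow σ _ m ▸ hw.pow m)
      rw [map_pow, ← pow_mul, ← pow_mul, mul_comm m, mul_comm m, map_mul, map_mul, map_mul,
        ← AdR_apply] at k6
      rwa [AdR_tw, ← Matrix.map_mul, tr_tw]
  refine arith hd hT.rat hl (by omega) fun τ b hb => ?_
  rcases hb with rfl | rfl
  · exact main τ 1 A₀ P₀ h₀ (he τ A₀ P₀ (by omega)) one_pos
  · exact main τ b A₁ P₁ h₁ (he τ A₁ P₁ (by omega)) hl.pos

theorem finite_op2 (r : ℕ) [NeZero r] : ∃ k : ℕ, ∀ (n : ℕ) (Mov : Finset (Fin n))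
    (L0 : List (Fin n)) (G : Type) [Group G] (g : Fin n → G) (σ : G →* Mt r)
    (W : Submodule ℂ (Mt r)) (P : G → Prop) (o : Fin n), L0.Nodup → (∀ a, a ∈ L0) →
    Subgroup.closure (Set.range g) = ⊤ → Function.Injective σ → (∀ x, (σ x).det = 1) → Typ2 σ W →
    (∀ γ x, P x → P (γ * x * γ⁻¹)) → (∀ x, P x → ¬ Scl (σ x)) → (∀ a ∈ Mov, P (g a)) → o ∉ Mov →
    k ≤ Mov.card → (∀ x y, IsConj (g o) x → P y → Test2 W (σ x) (σ y)) →
    PairH Mo (fun x => QU (σ x.1)) (L0.map (mkd {o} g)) → Finite G := by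
  classical
  obtain ⟨D, hD⟩ := engine r
  refine ⟨Kf (D + 1) (D + 1), fun n Mov L0 G _ g σ W P o h0 hall hg hi hd hT hP hPs hPa ho hk ht
    hp => ?_⟩
  have : Group.FG G := ⟨⟨Finset.univ.image g, by
    rw [Finset.coe_image, Finset.coe_univ, Set.image_univ, hg]⟩⟩
  refine hD G σ W hi hd hT fun τ A _ _ _ R hA => ?_
  obtain ⟨x, y, N, k1, k2, k3, ⟨z, k4, k5⟩, k6⟩ := escP h0 hall hg P hP
    (fun e => hPs 1 e ⟨1, by rw [map_one, one_smul]⟩) hPa ho hk hA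
    (R.comp ((AdR σ).prod (AdR (tw τ σ)))) (Q := fun x => QU (σ x))
    (fun γ x hx => QU.of_isConj (a := σ.toHomUnits _) (b := σ.toHomUnits x)
      (σ.toHomUnits.map_isConj (isConj_iff.2 ⟨γ, rfl⟩).symm) hx) hp
  exact ⟨x, y, N, ht x y k1 k2, k3, ⟨z, k4, hPs z k5⟩, k6⟩

end Pool.Agent.GR.OP
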