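import Pool.Agent.Lib.MP_aa40d3_nt.NP.StmtP

/-! Definitions used in the statement: irreducibility of the traceless endomorphisms. -/

open Polynomial Matrix

namespace Pool.Agent.GR.OP

variable {n r : ℕ}

/-- A module of matrices that is stable under `Φ ↦ Δ Φ' - [Δ A, Φ]` is scalar or contains a
non-zero multiple of every traceless matrix. -/
def AdIrr (t : Fin n → ℂ) (A : Fin n → Matrix (Fin r) (Fin r) ℂ) : Prop :=
  ∀ W : Submodule ℂ[X] (Matrix (Fin r) (Fin r) ℂ[X]),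
    (∀ Φ ∈ W, dl t • Φ.map derivative - (pm t A * Φ - Φ * pm t A) ∈ W) →
      (∀ Φ ∈ W, ∃ c : ℂ[X], Φ = c • (1 : Matrix (Fin r) (Fin r) ℂ[X])) ∨
        ∀ Φ : Matrix (Fin r) (Fin r) ℂ[X], Φ.trace = 0 → ∃ q : ℂ[X], q ≠ 0 ∧ q • Φ ∈ W

/-- The exponential `exp (2 π i A)` is not a scalar matrix. -/
def Ram (A : Matrix (Fin r) (Fin r) ℂ) : Prop :=
  ∀ c : ℂ, NormedSpace.exp ((2 * Real.pi * Complex.I : ℂ) • A) ≠
    c • (1 : Matrix (Fin r) (Fin r) ℂ)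

end Pool.Agent.GR.OP
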