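import Pool.Agent.Lib.MP_aa40d3_nt.MG.Esc
import Pool.Agent.Lib.MP_aa40d3_nt.FK.Pair

/-! The escape lemma for one marked member. -/

namespace Pool.Agent.GR.OP

open GC FB

variable {H : Type} [Group H]

theorem hur_front (T : List H) (b : H) :
    Hur (T ++ [b]) ((T.prod * b * T.prod⁻¹) :: T) := by
  induction T with
  | nil => simpa using Hur.refl [b]
  | cons t T ih =>
    have h1 := Hur.right (A := []) (x := t) (y := T.prod * b * T.prod⁻¹) (B := T)
      (by simpa using ih.app_left [t])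
    simpa [mul_assoc] using h1

theorem hur_pass {l C : List H} (h : l.Sublist C) (x : H) :
    ∃ C', Hur (x :: C) (C' ++ [l.prod⁻¹ * x * l.prod]) := by
  induction h generalizing x with
  | slnil => exact ⟨[], by simpa using Hur.refl [x]⟩
  | @cons l C c _ ih =>
    obtain ⟨C', h⟩ := ih x
    exact ⟨_ :: C', (Hur.right (A := []) (Hur.refl (x :: c :: C))).trans
      (h.app_left [x * c * x⁻¹])⟩
  | @cons_cons l C c _ ih =>
    obtain ⟨C', h⟩ := ih (c⁻¹ * x * c)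
    refine ⟨c :: C', (Hur.left (A := []) (Hur.refl (x :: c :: C))).trans ?_⟩
    simpa [mul_assoc] using h.app_left [c]

variable {n : ℕ} {G : Type} [Group G] {Mov : Finset (Fin n)} {L0 : List (Fin n)} {g : Fin n → G}
  {A : Type} [Ring A] [Algebra ℂ A] [FiniteDimensional ℂ A]

theorem escP (h0 : L0.Nodup) (hall : ∀ a, a ∈ L0) (hg : Subgroup.closure (Set.range g) = ⊤)
    (P : G → Prop) (hP : ∀ γ x, P x → P (γ * x * γ⁻¹)) (hP1 : ¬ P 1) (hPa : ∀ a ∈ Mov, P (g a))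
    {o : Fin n} (ho : o ∉ Mov) {D : ℕ} (hk : Kf (D + 1) (D + 1) ≤ Mov.card)
    (hD : Module.finrank ℂ A ≤ D) (ρ : G →* A) {Q : G → Prop} (hQ : ∀ γ x, Q x → Q (γ * x * γ⁻¹))
    (hp : PairH Mo (fun x => Q x.1) (L0.map (mkd {o} g))) :
    ∃ (x y : G) (N : Subgroup G), IsConj (g o) x ∧ P y ∧ N.Normal ∧ (∃ z ∈ N, P z) ∧
      ∀ K : Submodule ℂ A, (∀ w, Q (x * (w * y * w⁻¹)) → ρ w ∈ K) → ∀ w ∈ N, ρ w ∈ K := by
  obtain ⟨As, R, h, hs, hlen, hA⟩ := doubling h0 hall (esc_lev ρ hD P hP) (D + 1)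
    (front_init h0 hall hk fun a ha => ⟨g a, mem_cl (List.mem_singleton_self a), hPa a ha⟩)
  obtain ⟨h', hs', rfl⟩ := St.lift (MonoidHom.fst G Mk) (g := mkd {o} g) hs
  have hPh : ∀ a ∈ Mov, P (h' a).1 := fun a ha => by
    obtain ⟨c, hc⟩ := isConj_iff.1 (hs.conj a)
    exact (show c * g a * c⁻¹ = (h' a).1 from hc) ▸ hP c _ (hPa a ha)
  obtain ⟨j, hj, hV⟩ := esc_chain hD (fun j => escV ρ (MonoidHom.fst G Mk ∘ h') (As.take j).flatten)
    fun j => escV_mono ρ _ (List.take_sublist_take_left (Nat.le_succ j)).flatten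
  have hj' : j < As.length := by omega
  simp only [List.take_succ_eq_append_getElem hj', List.flatten_append, List.flatten_cons,
    List.flatten_nil, List.append_nil] at hV
  obtain ⟨-, ⟨z, hz, hPz⟩, hinv⟩ := hA As[j] (List.getElem_mem hj')
  have hmov : ∀ a ∈ As.flatten, a ∈ Mov := fun a ha => by
    obtain ⟨B, hB, haB⟩ := List.mem_flatten.1 ha
    exact (hA B hB).1 a haB
  obtain ⟨b, B, hb⟩ : ∃ b B, As[j] = b :: B := by
    refine List.exists_cons_of_ne_nil fun e => hP1 ?_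
    rw [e, cl] at hz
    simp only [List.not_mem_nil, Set.ofPred_false, Set.image_empty, Subgroup.closure_empty,
      Subgroup.mem_bot] at hz
    exact hz ▸ hPz
  have hAs : As.flatten = (As.take j).flatten ++ b :: (B ++ (As.drop (j + 1)).flatten) := by
    conv_lhs => rw [← List.take_append_drop j As, List.drop_eq_getElem_cons hj', hb]
    simp
  obtain ⟨R₁, R₂, rfl⟩ := List.append_of_mem ((List.mem_append.1
    (hs.perm.mem_iff.2 (hall o))).resolve_left fun e => ho (hmov o e))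
  generalize hT : (As.flatten ++ R₁).map h' = T
  have h1 : Hur (L0.map (mkd {o} g)) ((T.prod * h' o * T.prod⁻¹) :: (T ++ R₂.map h')) :=
    (hur_of_st h0 hs').trans (by simpa [← hT] using (hur_front T (h' o)).app_right (R₂.map h'))
  obtain ⟨c, hc⟩ := isConj_iff.1 (hs'.conj o)
  have hx : Mo (T.prod * h' o * T.prod⁻¹) := by
    rw [mo_conj, ← hc, mo_conj, mo_mkd]
    exact Finset.mem_singleton_self o
  have hxc : IsConj (g o) (T.prod * h' o * T.prod⁻¹).1 :=
    (hs.conj o).trans (isConj_iff.2 ⟨T.prod.1, rfl⟩)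
  generalize T.prod * h' o * T.prod⁻¹ = x at h1 hx hxc
  have hcj : ∀ γ y, ρ y ∈ escSp ρ (cl (MonoidHom.fst G Mk ∘ h') As[j]) →
      ρ (γ * y * γ⁻¹) ∈ escSp ρ (cl (MonoidHom.fst G Mk ∘ h') As[j]) := by
    intro γ y hy
    rw [map_mul, map_mul]
    exact (hinv γ (hg ▸ Subgroup.mem_top γ)).le ⟨ρ y, hy, rfl⟩
  refine ⟨x.1, (h' b).1, escN ρ (cl (MonoidHom.fst G Mk ∘ h') As[j]), hxc,
    hPh b (hmov b (by simp [hAs])), ⟨fun y hy γ => ⟨hcj γ y hy.1, ?_⟩⟩,
    ⟨z, ⟨Submodule.subset_span ⟨z, hz, rfl⟩, Submodule.subset_span ⟨z⁻¹, inv_mem hz, rfl⟩⟩, hPz⟩,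
    fun K hK y hy => Submodule.span_le.2 ?_ (esc_le ρ _ hV hy.1)⟩
  · have h2 := hcj γ y⁻¹ hy.2
    rwa [← conj_inv] at h2
  · rintro _ ⟨l, hl, rfl⟩
    obtain ⟨C', h2⟩ := hur_pass (hl.map h') x
    have h3 := hp C' _ (h' b) ((B ++ (As.drop (j + 1)).flatten ++ R₁).map h' ++ R₂.map h')
      (h1.trans (by simpa [← hT, hAs] using h2.app_right (h' b ::
        ((B ++ (As.drop (j + 1)).flatten ++ R₁).map h' ++ R₂.map h'))))
      (Or.inl (by simpa using (mo_conj (l.map h').prod⁻¹ x).2 hx))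
    have e : (l.map (MonoidHom.fst G Mk ∘ h')).prod = (l.map h').prod.1 := by
      rw [← List.map_map, ← map_list_prod]
      rfl
    refine hK _ ?_
    have h4 := hQ (l.map h').prod.1 _ h3
    rw [e]
    simpa [mul_assoc] using h4

end Pool.Agent.GR.OP
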