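import Pool.Agent.Lib.MP_aa40d3_nt.OP.An
import Pool.Agent.Lib.MP_aa40d3_nt.FK.NPair

/-! One generic singular point. -/

open Polynomial Matrix Set Filter Topology
open scoped Matrix.Norms.Operator

namespace Pool.Agent.GR.OP

open NP FB

theorem coreO (r : ℕ) [NeZero r] : ∃ k : ℕ, ∀ (n : ℕ) (o : Fin n) (S : Finset (Fin n))
    (t : Fin n → ℂ) (A : Fin n → Matrix (Fin r) (Fin r) ℂ), Gen {o} t →
    (Function.Injective fun i => (t i).re) → AdIrr t A → Ram (A o) → o ∉ S → k ≤ S.card →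
    (∀ j ∈ S, Ram (A j)) → PCN t A → AlgSol t A := by
  classical
  obtain ⟨k, hk⟩ := group_op r
  refine ⟨k, fun n o S t A ht hre hpr ho hoS hS hSr hpc => ?_⟩
  have hnt : Nontrivial (Fin r) := by
    by_contra h
    have := not_nontrivial_iff_subsingleton.1 h
    exact ho (NormedSpace.exp ((2 * Real.pi * Complex.I : ℂ) • A o) 0 0) (Matrix.ext fun a b => by
      rw [Subsingleton.elim a 0, Subsingleton.elim b 0]
      simp)
  obtain ⟨M, w, θ, hZ, hF, hG, hw, hA⟩ := exists_model4 ht (cycH_ne_zero_of_irred hpr.irred) hpc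
  obtain ⟨κ, H0, hκ, hH0, hc, hb⟩ := exists_core {o} t
  generalize hHe : (1 + κ) * H0 = H at hb
  have hH : 0 < H := hHe ▸ mul_pos (by linarith) hH0
  have hwt : (fun i => w (Sum.inl i)) = t := funext hw
  have hwr : (fun i => (w (Sum.inl i)).re) = fun i => (t i).re := funext fun i => by rw [hw]
  have hmon : mon2 M.toModel2 H (w, θ) = vt (TT t A) (pp t) H := by
    simp only [mon2, hwt, hA]
  have hcham : w ∈ Cham M.m (fun i => (t i).re) H := by
    refine ⟨by rw [hwt]; exact hb, fun a b hab => ?_⟩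
    rw [hw, hw]; exact hab
  obtain ⟨L0, l1, l2⟩ := exists_lowerL hre Finset.univ fun _ _ _ _ => Finset.mem_univ _
  have h0 : L0.Nodup := l1.1.imp fun hab e => hab.ne (by rw [e])
  have hall : ∀ a, a ∈ L0 := fun a => List.mem_toFinset.1 (l2 ▸ Finset.mem_univ a)
  have hp := FBN.pairH_model M hκ hH0 hHe.le hZ (by rw [hwt]; exact hc) (hwr ▸ l1) hall
    (hwr ▸ hcham) hG hF
  rw [hmon] at hp
  have h1 : ∀ i, QU (vt (TT t A) (pp t) H i).val := fun i => by
    have := arc4_single M hre i hcham hZ hG hF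
    rwa [hmon] at this
  set U : Set ℂ := {x | ∀ i, x.im < (t i).im} with hU
  have hUo : IsOpen U := by
    rw [hU, ofPred_forall]
    exact isOpen_iInter_of_finite fun i => isOpen_lt Complex.continuous_im continuous_const
  have hUc : Convex ℝ U := by
    rw [hU, ofPred_forall]
    exact convex_iInter fun i => convex_halfSpace_im_lt _
  have hx₀ : cpt (-H, -H) ∈ U := fun i => by
    have := (hb i).2
    simp only [pp, cpt] at this ⊢
    exact (abs_lt.1 this).1
  have hY : ∀ x ∈ U, (∀ i, x ≠ t i) ∧ (T t A (cpt (-H, -H)) x).det ≠ 0 ∧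
      HasDerivAt (T t A (cpt (-H, -H))) (sys t A x * T t A (cpt (-H, -H)) x) x := by
    intro x hx
    refine ⟨fun i h => lt_irrefl _ (h ▸ hx i), ?_, hasDerivAt_T A fun i hi => ?_⟩
    · exact ((Matrix.isUnit_iff_isUnit_det _).1 (isUnit_Tr _)).ne_zero
    · exact lt_irrefl _ (hUc.segment_subset hx₀ hx hi i)
  have hext := extProp hre A hH.le hb
  have hfin := hk n S L0 _ o h0 hall h1 (hpr.adI h1 hUo hx₀ (T_self _ _ _) hY hext)
    (ho.not_scl hre A hb fun y hy => (hY y hy).2.1)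
    (fun j hj => (hSr j hj).not_scl hre A hb fun y hy => (hY y hy).2.1) hoS hS hp
  obtain ⟨ε, hε, hball⟩ := Metric.isOpen_iff.1 hUo _ hx₀
  refine ⟨cpt (-H, -H), ε, T t A (cpt (-H, -H)), hε, fun x hx => ?_, fun a b => ?_⟩
  · obtain ⟨h1, h2, h3⟩ := hY x (hball hx)
    exact ⟨h1, h2, hasDerivAt_mat.1 h3⟩
  · obtain ⟨P, hP, h⟩ := alg_of_finite hfin hext a b
    exact ⟨P, hP, fun x hx => h x (hball hx)⟩

theorem finalO (r : ℕ) : ∃ k : ℕ, ∀ (n : ℕ) (R : Type) [CommRing R]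
    [Algebra.FiniteType ℤ R] (ι : R →+* ℂ), Function.Injective ι → ∀ (t : Fin n → R)
    (A : Fin n → Matrix (Fin r) (Fin r) R) (o : Fin n) (S : Finset (Fin n)) (P₀ : ℕ),
    Function.Injective t →
    Transcendental (IntermediateField.adjoin ℚ {x : ℂ | ∃ j, j ≠ o ∧ x = ι (t j)}) (ι (t o)) →
    AdIrr (fun i => ι (t i)) (fun i => (A i).map ι) → Ram ((A o).map ι) → k ≤ S.card →
    (∀ j ∈ S, Ram ((A j).map ι)) →
    (∀ p : ℕ, p.Prime → P₀ < p → ∀ m : Ideal R, m.IsMaximal → (p : R) ∈ m →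
      NilCurv p (fun i => Ideal.Quotient.mk m (t i)) fun i => (A i).map (Ideal.Quotient.mk m)) →
    ∀ φ : R →+* ℂ, AlgSol (fun i => φ (t i)) fun i => (A i).map φ := by
  classical
  rcases Nat.eq_zero_or_pos r with rfl | hr
  · exact ⟨0, fun n R _ _ ι hι t A o S P₀ _ _ _ ho => absurd (Subsingleton.elim _ _) (ho 0)⟩
  have : NeZero r := ⟨hr.ne'⟩
  obtain ⟨k, hk⟩ := coreO r
  refine ⟨k + 1, fun n R _ _ ι hι t A o S P₀ ht hind hpr ho hS hSr hp φ => ?_⟩
  have hinj : Function.Injective fun i => ι (t i) := hι.comp ht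
  have hgen : Gen {o} fun i => ι (t i) :=
    ⟨(IntermediateField.adjoin ℚ {x : ℂ | ∃ j, j ≠ o ∧ x = ι (t j)}).toSubalgebra.toSubring,
      fun j hj => IntermediateField.subset_adjoin ℚ _ ⟨j, by simpa using hj, rfl⟩,
      algebraicIndependent_unique_type_iff.2 hind⟩
  obtain ⟨t', c, hc, htt, hgen', hre⟩ := exists_rotation3 hinj hgen
  exact AlgSol.spec ι φ hι t A (AlgSol.aff hc htt (hk n o (S.erase o) t' _ hgen' hre
    (hpr.aff hc htt) ho (Finset.notMem_erase o S)
    (by have := Finset.pred_card_le_card_erase (s := S) (a := o); omega)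
    (fun j hj => hSr j (Finset.mem_of_mem_erase hj)) ((pcn_of_nil ι hι hp).aff hc htt)))

end Pool.Agent.GR.OP
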