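import Pool.Agent.Lib.MP_aa40d3_nt.OP.Tow
import Pool.Agent.Lib.MP_aa40d3_nt.MG.Esc

/-! The infinitesimal form of the trace identity; the lemma of Goursat. -/

open Matrix

namespace Pool.Agent.GR.OP

variable {r : ℕ} {G : Type} [Group G]

/-- The commutator as an endomorphism. -/
noncomputable def adL : Mt r →ₗ[ℂ] Module.End ℂ (Mt r) :=
  LinearMap.mul ℂ (Mt r) - (LinearMap.mul ℂ (Mt r)).flip

theorem adL_apply (X z : Mt r) : adL X z = X * z - z * X := rfl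

/-- Conjugation as an endomorphism. -/
noncomputable def AdR (σ : G →* Mt r) : G →* Module.End ℂ (Mt r) where
  toFun γ := LinearMap.mulLeft ℂ (σ γ) * LinearMap.mulRight ℂ (σ γ⁻¹)
  map_one' := by
    refine LinearMap.ext fun z => ?_
    simp
  map_mul' a b := by
    refine LinearMap.ext fun z => ?_
    simp [mul_assoc]

theorem AdR_apply (σ : G →* Mt r) (γ : G) (z : Mt r) : AdR σ γ z = σ γ * z * σ γ⁻¹ :=
  (mul_assoc _ _ _).symm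

theorem AdR_adL (σ : G →* Mt r) (γ : G) (X : Mt r) :
    AdR σ γ * adL X * AdR σ γ⁻¹ = adL (AdR σ γ X) := by
  refine LinearMap.ext fun z => ?_
  simp only [Module.End.mul_apply, AdR_apply, adL_apply, inv_inv, mul_sub, sub_mul, mul_assoc,
    rep_mul_inv, mul_one]
  rw [← mul_assoc (σ γ) (σ γ⁻¹), rep_mul_inv, one_mul]

theorem lg_ad {v : ℂ → ℂ} (hv : Chr v) (σ : G →* Mt r) {w : G} {X : Mt r} (h : Lg v (σ w) X) :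
    Lg v (AdR σ w) (adL X) := by
  have h1 := (h.map (Algebra.lmul ℂ (Mt r))).mul hv (T' := Algebra.lsmul ℂ ℂ (Mt r)
    (MulOpposite.op (σ w⁻¹))) (LinearMap.ext fun z => (mul_assoc _ _ _).symm)
    ((h.opinv hv (rep_mul_inv σ w) (rep_inv_mul σ w)).map (Algebra.lsmul ℂ ℂ (Mt r)))
  have e : adL X = Algebra.lmul ℂ (Mt r) X + Algebra.lsmul ℂ ℂ (Mt r) (MulOpposite.op (-X)) :=
    LinearMap.ext fun z => by simp [adL_apply, sub_eq_add_neg]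
  rw [e]
  exact h1

/-- An irreducible space of matrices. -/
def IrW (σ : G →* Mt r) (W : Submodule ℂ (Mt r)) : Prop :=
  (∀ γ, ∀ z ∈ W, AdR σ γ z ∈ W) ∧
    ∀ U ≤ W, (∀ γ, ∀ z ∈ U, AdR σ γ z ∈ U) → U = ⊥ ∨ U = W

/-- A nilpotent member whose leading term does not vanish. -/
def Test (W : Submodule ℂ (Mt r)) (x y : Mt r) : Prop :=
  ∃ E ∈ W, ∃ j, 0 < j ∧ adL E ^ (j + 1) = 0 ∧ ∀ m, 0 < m → ((x * (adL E ^ j) y) ^ m).trace ≠ 0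

/-- Nilpotence is seen on the space. -/
def NilW (W : Submodule ℂ (Mt r)) : Prop :=
  ∀ E ∈ W, ∀ k, (∀ z ∈ W, (adL E ^ (k + 1)) z = 0) → IsNilpotent (adL E)

theorem tow_test {A : Type} [Ring A] [Algebra ℂ A] {m : ℕ} (w : Tow (Module.End ℂ (Mt r)) m A)
    {x y E : Mt r} {F : A →ₗ[ℂ] Mt r} (hF : ∀ T, F (w.P T) = (x * T y) ^ m) {j : ℕ}
    (hE : adL E ^ (j + 1) = 0) (h : (F (w.d (adL E) ^ (j * m))).trace = 0) :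
    ((x * (adL E ^ j) y) ^ m).trace = 0 := by
  obtain ⟨-, c, hc, e⟩ := w.nil _ j hE
  rw [e, map_smul, hF, trace_smul, smul_eq_mul] at h
  exact (mul_eq_zero.1 h).resolve_left hc

theorem goursat {σ₁ σ₂ : G →* Mt r} {W₁ W₂ : Submodule ℂ (Mt r)} (i₁ : IrW σ₁ W₁)
    (i₂ : IrW σ₂ W₂) {x₁ y₁ x₂ y₂ : Mt r} (t₁ : Test W₁ x₁ y₁) (t₂ : Test W₂ x₂ y₂) {l b : ℕ}
    (hl : 0 < l) (hb : 0 < b) (N : Subgroup G) [hN : N.Normal]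
    (h : ∀ w ∈ N, ((x₁ * AdR σ₁ w y₁) ^ l).trace = ((x₂ * AdR σ₂ w y₂) ^ b).trace)
    {v : ℂ → ℂ} (hv : Chr v) {w₀ : G} (hw : w₀ ∈ N) {X₁ X₂ : Mt r} (m₁ : X₁ ∈ W₁) (m₂ : X₂ ∈ W₂)
    (l₁ : Lg v (AdR σ₁ w₀) (adL X₁)) (l₂ : Lg v (AdR σ₂ w₀) (adL X₂)) (h0 : X₁ ≠ 0) :
    (∀ c (δ : ℂ), ∀ z' ∈ W₂, z' ≠ 0 → AdR σ₂ c z' = δ • z' →
      ∃ z ∈ W₁, z ≠ 0 ∧ AdR σ₁ c z = δ • z) ∧ (b = 1 → r * r < l → ¬ NilW W₂) := by
  obtain ⟨A₁, _, _, _, ⟨u₁⟩⟩ := exists_tow (Module.End ℂ (Mt r)) l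
  obtain ⟨A₂, _, _, _, ⟨u₂⟩⟩ := exists_tow (Module.End ℂ (Mt r)) b
  obtain ⟨F₁, hF₁⟩ := u₁.ev (Mt r) (LinearMap.mulLeft ℂ x₁ ∘ₗ LinearMap.applyₗ y₁)
  obtain ⟨F₂, hF₂⟩ := u₂.ev (Mt r) (LinearMap.mulLeft ℂ x₂ ∘ₗ LinearMap.applyₗ y₂)
  let ρ := ((u₁.P.comp (AdR σ₁)).prod (u₂.P.comp (AdR σ₂))).prod ((AdR σ₁).prod (AdR σ₂))
  let δ := ((u₁.d ∘ₗ adL).prodMap (u₂.d ∘ₗ adL)).prod
    ((adL (r := r)).prodMap (adL (r := r)))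
  let S := (escSp ρ N).toSubalgebra (Submodule.subset_span ⟨1, N.one_mem, map_one ρ⟩)
    fun _ _ => escSp_mul ρ N
  have hS : ∀ K : Submodule ℂ _, (∀ w ∈ N, ρ w ∈ K) → ∀ s ∈ S, s ∈ K := fun K hK s hs =>
    Submodule.span_le.2 (by rintro _ ⟨w, hw, rfl⟩; exact hK w hw) hs
  have hSm : ∀ w ∈ N, ρ w ∈ S := fun w hw => Submodule.subset_span ⟨w, hw, rfl⟩
  have hf : ∀ s ∈ S, (F₁ s.1.1).trace = (F₂ s.1.2).trace := fun s hs =>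
    hS (LinearMap.eqLocus
      (traceLinearMap _ ℂ ℂ ∘ₗ F₁ ∘ₗ LinearMap.fst ℂ _ _ ∘ₗ LinearMap.fst ℂ _ _)
      (traceLinearMap _ ℂ ℂ ∘ₗ F₂ ∘ₗ LinearMap.snd ℂ _ _ ∘ₗ LinearMap.fst ℂ _ _))
      (fun w hw => by
        change (F₁ (u₁.P _)).trace = (F₂ (u₂.P _)).trace
        rw [hF₁, hF₂]
        exact h w hw) s hs
  let 𝔤 : Submodule ℂ (Mt r × Mt r) := W₁.prod W₂ ⊓ (Subalgebra.toSubmodule S).comap δ
  have hinv : ∀ γ, ∀ p ∈ 𝔤, (AdR σ₁ γ p.1, AdR σ₂ γ p.2) ∈ 𝔤 := fun γ p hp => by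
    refine ⟨⟨i₁.1 γ _ hp.1.1, i₂.1 γ _ hp.1.2⟩, ?_⟩
    have k1 := hS ((Subalgebra.toSubmodule S).comap
      (LinearMap.mulRight ℂ (ρ γ⁻¹) ∘ₗ LinearMap.mulLeft ℂ (ρ γ))) (fun w hw => by
        change ρ γ * ρ w * ρ γ⁻¹ ∈ S
        rw [← map_mul, ← map_mul]
        exact hSm _ (hN.conj_mem w hw γ)) _ hp.2
    have k2 : ∀ σ : G →* Mt r, AdR σ γ * AdR σ γ⁻¹ = 1 := fun σ => by
      rw [← map_mul, mul_inv_cancel, map_one]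
    have e : ρ γ * δ p * ρ γ⁻¹ = δ (AdR σ₁ γ p.1, AdR σ₂ γ p.2) :=
      Prod.ext (Prod.ext ((u₁.cj _ _ _ (k2 σ₁)).trans (congrArg u₁.d (AdR_adL σ₁ γ p.1)))
        ((u₂.cj _ _ _ (k2 σ₂)).trans (congrArg u₂.d (AdR_adL σ₂ γ p.2))))
        (Prod.ext (AdR_adL σ₁ γ p.1) (AdR_adL σ₂ γ p.2))
    change δ _ ∈ S
    rw [← e]
    exact k1
  have hX : (X₁, X₂) ∈ 𝔤 := by
    refine ⟨⟨m₁, m₂⟩, ?_⟩
    obtain ⟨q, hq⟩ := (((u₁.lg v hv _ _ l₁).prod (u₂.lg v hv _ _ l₂)).prod (l₁.prod l₂)).poly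
    change δ _ ∈ S
    rw [show δ (X₁, X₂) = Polynomial.aeval (ρ w₀) q from hq]
    exact (Algebra.adjoin_le_iff.2 (Set.singleton_subset_iff.2 (hSm _ hw)))
      (Polynomial.aeval_mem_adjoin_singleton ℂ _)
  have hpow : ∀ p ∈ 𝔤, ∀ k : ℕ,
      (F₁ (u₁.d (adL p.1) ^ k)).trace = (F₂ (u₂.d (adL p.2) ^ k)).trace :=
    fun p hp k => hf _ (S.pow_mem hp.2 k)
  obtain ⟨E₁, e₁, j₁, p₁, n₁, z₁⟩ := t₁
  obtain ⟨E₂, e₂, j₂, p₂, n₂, z₂⟩ := t₂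
  have g₁ : ∀ z, (z, 0) ∈ 𝔤 → z = 0 := by
    rcases i₁.2 (𝔤.comap (LinearMap.inl ℂ _ _)) (fun z hz => hz.1.1)
      (fun γ z hz => by simpa using hinv γ _ hz) with k | k
    · exact fun z hz => (Submodule.mem_bot ℂ).1 (k.le hz)
    · refine absurd (tow_test u₁ hF₁ n₁ ?_) (z₁ l hl)
      have := hpow _ (k.ge e₁) (j₁ * l)
      simpa [(Nat.mul_pos p₁ hl).ne'] using this
  have g₂ : ∀ z, (0, z) ∈ 𝔤 → z = 0 := by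
    rcases i₂.2 (𝔤.comap (LinearMap.inr ℂ _ _)) (fun z hz => hz.1.2)
      (fun γ z hz => by simpa using hinv γ _ hz) with k | k
    · exact fun z hz => (Submodule.mem_bot ℂ).1 (k.le hz)
    · refine absurd (tow_test u₂ hF₂ n₂ ?_) (z₂ b hb)
      have := (hpow _ (k.ge e₂) (j₂ * b)).symm
      simpa [(Nat.mul_pos p₂ hb).ne'] using this
  have s₁ : ∀ z ∈ W₁, ∃ z', (z, z') ∈ 𝔤 := by
    rcases i₁.2 (𝔤.map (LinearMap.fst ℂ _ _)) (by rintro _ ⟨p, hp, rfl⟩; exact hp.1.1)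
      (by rintro γ _ ⟨p, hp, rfl⟩; exact ⟨_, hinv γ p hp, rfl⟩) with k | k
    · exact absurd ((Submodule.mem_bot ℂ).1 (k.le ⟨_, hX, rfl⟩)) h0
    · intro z hz
      obtain ⟨p, hp, rfl⟩ := k.ge hz
      exact ⟨p.2, hp⟩
  have s₂ : ∀ z' ∈ W₂, ∃ z, (z, z') ∈ 𝔤 := by
    rcases i₂.2 (𝔤.map (LinearMap.snd ℂ _ _)) (by rintro _ ⟨p, hp, rfl⟩; exact hp.1.2)
      (by rintro γ _ ⟨p, hp, rfl⟩; exact ⟨_, hinv γ p hp, rfl⟩) with k | k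
    · have k1 : X₂ = 0 := (Submodule.mem_bot ℂ).1 (k.le ⟨_, hX, rfl⟩)
      exact absurd (g₁ _ (k1 ▸ hX)) h0
    · intro z hz
      obtain ⟨p, hp, rfl⟩ := k.ge hz
      exact ⟨p.1, hp⟩
  refine ⟨fun c a z' hz' h1 h2 => ?_, fun hb1 hl2 hn => ?_⟩
  · obtain ⟨z, hz⟩ := s₂ z' hz'
    refine ⟨z, hz.1.1, fun e => h1 (g₂ _ (e ▸ hz)), sub_eq_zero.1 (g₁ _ ?_)⟩
    have := 𝔤.sub_mem (hinv c _ hz) (𝔤.smul_mem a hz)
    simpa [h2] using this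
  · subst hb1
    obtain ⟨E', hE'⟩ := s₁ E₁ e₁
    have k1 : ∀ z' ∈ W₂, (adL E' ^ (j₁ + 1)) z' = 0 := fun z' hz' => by
      obtain ⟨z, hz⟩ := s₂ z' hz'
      have k0 : δ (E₁, E') ∈ S := hE'.2
      have k2 := hS (𝔤.comap (((LinearMap.applyₗ z).prodMap (LinearMap.applyₗ z')) ∘ₗ
        LinearMap.snd ℂ _ _)) (fun w _ => hinv w (z, z') hz) _ (S.pow_mem k0 (j₁ + 1))
      refine g₂ _ ?_
      have k3 : (δ (E₁, E') ^ (j₁ + 1)).2 = (0, adL E' ^ (j₁ + 1)) := by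
        rw [Prod.pow_snd, ← n₁]
        rfl
      rw [Submodule.mem_comap, LinearMap.comp_apply, LinearMap.snd_apply, k3] at k2
      exact k2
    have k2 : adL E' ^ (r * r + 1) = 0 := by
      have k3 := (hn E' hE'.1.2 j₁ k1).charpoly_eq_X_pow_finrank
      have k4 := LinearMap.aeval_self_charpoly (adL E')
      rw [k3, map_pow, Polynomial.aeval_X, Module.finrank_matrix] at k4
      rw [pow_succ, show adL E' ^ (r * r) = 0 by simpa using k4, zero_mul]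
    refine z₁ l hl (tow_test u₁ hF₁ n₁ ?_)
    rw [hpow _ hE', pow_eq_zero_of_le (by nlinarith) (u₂.nil _ _ k2).1, map_zero, trace_zero]

end Pool.Agent.GR.OP
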