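import Pool.Agent.Lib.MP_aa40d3_nt.OP.Tra
import Pool.Agent.Lib.MP_aa40d3_nt.OP.Esc
import Pool.Agent.Lib.MP_aa40d3_nt.NP.AbsQ

/-! The group theorem for one marked generator. -/

open Matrix

namespace Pool.Agent.GR.OP

open NP GC FB

variable {r : ℕ} {G : Type} [Group G] {σ : G →* Mt r} {W : Submodule ℂ (Mt r)}

/-- The eigenvalues of conjugation on the space. -/
def AdW (σ : G →* Mt r) (W : Submodule ℂ (Mt r)) (c : G) : Set ℂ :=
  {δ | ∃ z ∈ W, z ≠ 0 ∧ AdR σ c z = δ • z}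

/-- The properties of the space that plays the part of the Lie algebra. -/
structure Typ (σ : G →* Mt r) (W : Submodule ℂ (Mt r)) : Prop where
  irr : IrW σ W
  log : LogW σ W
  nil : NilW W
  rat : ∀ c, ∀ μ ∈ spectrum ℂ (σ c), ∀ ν ∈ spectrum ℂ (σ c), ∀ M : ℕ, (μ / ν) ^ M ≠ 1 →
    ∃ δ ∈ AdW σ W c, δ ^ M ≠ 1
  simp : SimpR σ

theorem fin_of_qu [NeZero r] [Group.FG G] (hi : Function.Injective σ) (hd : ∀ x, (σ x).det = 1)
    (hS : SimpR σ) (N : Subgroup G) [N.Normal] (hN : ∃ x ∈ N, ¬ Scl (σ x))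
    (h : ∀ x ∈ N, QU (σ x)) : Finite G := by
  obtain ⟨E, hE, hexp⟩ := exists_expo σ
  have hT : ((fun v : Fin r → ℂ => ∑ i, v i) ''
      (Set.pi Set.univ fun _ : Fin r => {z : ℂ | z ^ E = 1})).Finite := by
    refine Set.Finite.image _ (Set.Finite.pi fun _ => ?_)
    refine (Polynomial.nthRootsFinset E (1 : ℂ)).finite_toSet.subset fun z hz => ?_
    exact (Polynomial.mem_nthRootsFinset hE 1).mpr hz
  have hfin : Finite N := by
    refine finite_of_tracesR hi N (spR_top hS N hN) hT fun x hx => ?_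
    obtain ⟨v, h1, -, h2⟩ := exists_eig (σ x)
    exact ⟨v, fun i _ => hexp x _ (h2 i) (qu_iff.1 (h x hx) _ (h2 i)), by simpa using (h1 1).symm⟩
  exact finite_of_normal hi hd hS N hN

theorem exists_ratio [NeZero r] {x : Mt r} (hd : x.det = 1) (h : ¬ QU x) :
    ∃ μ ∈ spectrum ℂ x, ∃ ν ∈ spectrum ℂ x, ¬ IsOfFinOrder (μ / ν) := by
  by_contra hc
  push Not at hc
  refine h (qu_iff.2 fun μ hμ => ?_)
  obtain ⟨v, -, h2, h3⟩ := exists_eig x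
  obtain ⟨m, hm, hm'⟩ := isOfFinOrder_iff_pow_eq_one.1
    (IsOfFinOrder.pi (x := fun i => μ / v i) fun i => hc μ hμ _ (h3 i))
  refine isOfFinOrder_iff_pow_eq_one.2 ⟨r * m, Nat.mul_pos (NeZero.pos r) hm, ?_⟩
  have h4 : (∏ i, μ / v i) ^ m = 1 := by
    rw [← Finset.prod_pow]
    exact Finset.prod_eq_one fun i _ => congrFun hm' i
  rwa [Finset.prod_div_distrib, ← h2, hd, div_one, Finset.prod_const, Finset.card_univ,
    Fintype.card_fin, ← pow_mul] at h4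

theorem exists_chr {δ : ℂ} (h0 : δ ≠ 0) (h : ¬ IsOfFinOrder δ) : ∃ v, Chr v ∧ v δ ≠ 0 := by
  classical
  obtain ⟨v, hv⟩ := exists_addchar (z := Units.mk0 δ h0) fun k => h (Units.isOfFinOrder_val.2 k)
  refine ⟨fun z => if hz : z = 0 then 0 else (v (Units.mk0 z hz)).toAdd, fun a b ha hb => ?_, ?_⟩
  · beta_reduce
    rw [dif_neg ha, dif_neg hb, dif_neg (mul_ne_zero ha hb), ← toAdd_mul, ← map_mul, Units.mk0_mul]
  · beta_reduce
    rw [dif_neg h0]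
    exact fun e => hv (toAdd_eq_zero.1 e)

theorem adS_ne {c : G} {δ : ℂ} (h : δ ∈ AdS σ c) : δ ≠ 0 := by
  obtain ⟨z, hz, e⟩ := h
  rintro rfl
  refine hz ?_
  rw [← AdR_apply, zero_smul] at e
  have := congrArg (AdR σ c⁻¹) e
  rwa [← Module.End.mul_apply, ← map_mul, inv_mul_cancel, map_one, map_zero] at this

theorem key [NeZero r] [Group.FG G] (hi : Function.Injective σ) (hd : ∀ x, (σ x).det = 1)
    (hT : Typ σ W) (τ : ℂ ≃+* ℂ) {l b : ℕ} (hl : r * r < l) (hb : 0 < b) (N : Subgroup G)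
    [N.Normal] (hN : ∃ x ∈ N, ¬ Scl (σ x)) {x y : Mt r} (ht : Test W x y)
    (h : ∀ w ∈ N, ((x * AdR σ w y) ^ l).trace = τ ((x * AdR σ w y) ^ b).trace)
    (hG : ¬ Finite G) : b ≠ 1 ∧ ∀ c, ∀ δ ∈ AdW σ W c, τ δ ∈ AdS σ c := by
  obtain ⟨w, hw, hq⟩ : ∃ w ∈ N, ¬ QU (σ w) := by
    by_contra hc
    push Not at hc
    exact hG (fin_of_qu hi hd hT.simp N hN hc)
  obtain ⟨μ, hμ, ν, hν, hf⟩ := exists_ratio (hd w) hq
  have hδ := (adS_ratio σ w hμ hν).2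
  obtain ⟨v, hv, hvδ⟩ := exists_chr (adS_ne hδ) hf
  obtain ⟨X, hX⟩ := exists_lg v (rep_inv_mul σ w)
  obtain ⟨X', hX'⟩ := exists_lg v (rep_inv_mul (tw τ σ) w)
  obtain ⟨X₁, m₁, e₁⟩ := hT.log v hv w X hX
  obtain ⟨X₂, m₂, e₂⟩ := hT.log.tw τ v hv w X' hX'
  have l₁ := e₁ ▸ lg_ad hv σ hX
  have h0 : X₁ ≠ 0 := by
    rintro rfl
    obtain ⟨z, hz, e⟩ := hδ
    have k1 := l₁.eig (z := (traceLinearMap _ ℂ ℂ).smulRight z) (μ := μ / ν)
      (LinearMap.ext fun y => by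
        simp only [Module.End.mul_apply, LinearMap.smulRight_apply, map_smul, AdR_apply, e,
          LinearMap.smul_apply]
        exact smul_comm _ _ _)
    have k2 := (LinearMap.congr_fun k1 1).symm
    simp [smul_smul, hvδ, hz, NeZero.ne r] at k2
  obtain ⟨k1, k2⟩ := goursat hT.irr (hT.irr.tw τ) ht (ht.tw τ) (Nat.zero_lt_of_lt hl) hb N (fun w hw => by
    rw [h w hw, AdR_tw, ← Matrix.map_mul, tr_tw]) hv hw m₁ m₂ l₁ (e₂ ▸ lg_ad hv _ hX') h0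
  refine ⟨fun e => k2 e hl (hT.nil.tw τ), ?_⟩
  rintro c δ ⟨z, a1, a2, a3⟩
  obtain ⟨z', -, a4, a5⟩ := k1 c (τ δ) (z.map τ) (map_twW.2 a1) (fun e => a2 (by
    rw [← mp_mp τ z, e, Matrix.map_zero _ (map_zero _)])) (by rw [AdR_tw, a3, mp_smul])
  exact ⟨z', a4, AdR_apply σ c z' ▸ a5⟩

theorem arith [NeZero r] [Group.FG G] (hd : ∀ x, (σ x).det = 1)
    (hT : ∀ c, ∀ μ ∈ spectrum ℂ (σ c), ∀ ν ∈ spectrum ℂ (σ c), ∀ M : ℕ, (μ / ν) ^ M ≠ 1 →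
      ∃ δ ∈ AdW σ W c, δ ^ M ≠ 1) {l : ℕ} (hl : l.Prime) (hsl : r * r + 1 < l)
    (h : ∀ (τ : ℂ ≃+* ℂ) (b : ℕ), b = 1 ∨ b = l →
      (∀ x, QU (σ x) → (σ x ^ l).trace = τ (σ x ^ b).trace) →
      b ≠ 1 ∧ ∀ c, ∀ δ ∈ AdW σ W c, τ δ ∈ AdS σ c) : False := by
  classical
  have hex : ∃ N : ℕ, 0 < N ∧ ∀ x, QU (σ x) → ∀ μ ∈ spectrum ℂ (σ x), μ ^ N = 1 := by
    obtain ⟨E, hE, h1⟩ := exists_expo σ
    exact ⟨E, hE, fun x hx μ hμ => h1 x μ hμ (qu_iff.1 hx μ hμ)⟩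
  obtain ⟨hN0, hN1⟩ := Nat.find_spec hex
  have hmin := fun m => Nat.find_min hex (m := m)
  generalize Nat.find hex = N₀ at hN0 hN1 hmin
  by_cases hdv : l ∣ N₀
  swap
  · obtain ⟨τ, hτ1, hτ2⟩ := exists_tau hN0 ((Nat.Prime.coprime_iff_not_dvd hl).2 hdv)
    exact (h (RingEquiv.ofBijective τ (tau_surj hτ2)) 1 (Or.inl rfl) fun x hx =>
      (abs_trace _ τ fun μ hμ => by rw [pow_one, hτ1 μ (hN1 x hx μ hμ)]).symm).1 rfl
  obtain ⟨M, rfl⟩ := hdv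
  have : Fact l.Prime := ⟨hl⟩
  have hM : 0 < M := Nat.pos_of_mul_pos_left hN0
  have h1 := hmin M (lt_mul_left hM hl.one_lt)
  push Not at h1
  obtain ⟨c, hc, μ, hμ, hμM⟩ := h1 hM
  have hν : ∃ ν ∈ spectrum ℂ (σ c), (μ / ν) ^ M ≠ 1 := by
    by_contra hcon
    push Not at hcon
    obtain ⟨v, -, h2, h3⟩ := exists_eig (σ c)
    have h4 : ∀ i, v i ^ M = μ ^ M := fun i => by
      have h5 := hcon _ (h3 i)
      rw [div_pow, div_eq_one_iff_eq (pow_ne_zero M (adS_ratio σ c hμ (h3 i)).1)] at h5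
      exact h5.symm
    have h5 : (μ ^ M) ^ r = 1 := by
      have h6 : (∏ i, v i) ^ M = 1 := by rw [← h2, hd, one_pow]
      rw [← Finset.prod_pow, Finset.prod_congr rfl fun i _ => h4 i, Finset.prod_const,
        Finset.card_univ, Fintype.card_fin] at h6
      exact h6
    have h6 : (μ ^ M) ^ l = 1 := by rw [← pow_mul, mul_comm, hN1 c hc μ hμ]
    have hs0 : 0 < r := Nat.pos_of_ne_zero (NeZero.ne r)
    have hs1 : r < l := by nlinarith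
    have h7 : Nat.Coprime l r :=
      (Nat.Prime.coprime_iff_not_dvd hl).2 fun h8 => absurd (Nat.le_of_dvd hs0 h8) (not_le.2 hs1)
    exact hμM (orderOf_eq_one_iff.1 (Nat.eq_one_of_dvd_coprimes h7
      (orderOf_dvd_of_pow_eq_one h6) (orderOf_dvd_of_pow_eq_one h5)))
  obtain ⟨ν, hν, hδM⟩ := hν
  obtain ⟨δ, hδ, hδM⟩ := hT c μ hμ ν hν M hδM
  have hδN : δ ^ (l * M) = 1 := by
    obtain ⟨z, -, a2, a3⟩ := hδ
    refine aq1_tw ⟨r, pow_of_spec (hN1 c hc)⟩ (aq1_pow ?_ _) a2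
    rw [← smul_mul_assoc, ← a3, AdR_apply, mul_assoc, rep_inv_mul, mul_one]
  have hδ0 : δ ≠ 0 := by
    rintro rfl
    rw [zero_pow hN0.ne'] at hδN
    exact zero_ne_one hδN
  have hord : orderOf (δ ^ M) = l := orderOf_eq_prime (by rw [← pow_mul, mul_comm, hδN]) hδM
  have h2 := adS_card σ c (((Finset.range l).filter fun j => ¬ l ∣ 1 + j * M).image
    fun j => δ ^ (1 + j * M)) fun z hz => by
      obtain ⟨j, hj, rfl⟩ := Finset.mem_image.1 hz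
      have hco : Nat.Coprime (1 + j * M) (l * M) :=
        Nat.Coprime.mul_right ((Nat.Prime.coprime_iff_not_dvd hl).2 (Finset.mem_filter.1 hj).2).symm
          (by simp)
      obtain ⟨τ, hτ1, hτ2⟩ := exists_tau hN0 hco
      rw [← hτ1 δ hδN]
      exact (h (RingEquiv.ofBijective τ (tau_surj hτ2)) l (Or.inr rfl) fun x hx =>
        (abs_trace _ τ fun w hw => by
          have h4 := hN1 x hx w hw
          rw [map_pow, hτ1 w h4, ← pow_mul, show (1 + j * M) * l = l + l * M * j by ring, pow_add,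
            pow_mul w (l * M), h4, one_pow, mul_one]).symm).2 c δ hδ
  rw [Finset.card_image_of_injOn] at h2
  · have h3 := abs_card (M := M) hl
    omega
  · intro i hi' j hj' hij
    have h3 : δ * (δ ^ M) ^ i = δ * (δ ^ M) ^ j := by
      rw [← pow_mul, ← pow_mul, ← pow_succ', ← pow_succ', mul_comm M, mul_comm M, add_comm _ 1,
        add_comm _ 1]
      exact hij
    refine pow_injOn_Iio_orderOf ?_ ?_ (mul_left_cancel₀ hδ0 h3)
    · rw [hord]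
      exact Finset.mem_range.1 (Finset.mem_filter.1 hi').1
    · rw [hord]
      exact Finset.mem_range.1 (Finset.mem_filter.1 hj').1

theorem finite_op (r : ℕ) [NeZero r] : ∃ k : ℕ, ∀ (n : ℕ) (Mov : Finset (Fin n))
    (L0 : List (Fin n)) (G : Type) [Group G] (g : Fin n → G) (σ : G →* Mt r)
    (W : Submodule ℂ (Mt r)) (P : G → Prop) (o : Fin n), L0.Nodup → (∀ a, a ∈ L0) →
    Subgroup.closure (Set.range g) = ⊤ → Function.Injective σ → (∀ x, (σ x).det = 1) → Typ σ W →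
    (∀ γ x, P x → P (γ * x * γ⁻¹)) → (∀ x, P x → ¬ Scl (σ x)) → (∀ a ∈ Mov, P (g a)) → o ∉ Mov →
    k ≤ Mov.card → (∀ x y, IsConj (g o) x → P y → Test W (σ x) (σ y)) →
    PairH Mo (fun x => QU (σ x.1)) (L0.map (mkd {o} g)) → Finite G := by
  classical
  obtain ⟨l, hl1, hl⟩ := Nat.exists_infinite_primes (r * r + 2)
  obtain ⟨A₀, _, _, _, ⟨u₀⟩⟩ := exists_tow (Module.End ℂ (Mt r)) 1
  obtain ⟨A₁, _, _, _, ⟨u₁⟩⟩ := exists_tow (Module.End ℂ (Mt r)) l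
  obtain ⟨D, hD⟩ : ∃ D, D = Module.finrank ℂ (A₁ × A₀) + Module.finrank ℂ (A₁ × A₁) := ⟨_, rfl⟩
  refine ⟨Kf (D + 1) (D + 1), fun n Mov L0 G _ g σ W P o h0 hall hg hi hd hT hP hPs hPa ho hk ht
    hp => ?_⟩
  have : Group.FG G := ⟨⟨Finset.univ.image g, by
    rw [Finset.coe_image, Finset.coe_univ, Set.image_univ, hg]⟩⟩
  by_contra hG
  have main : ∀ (τ : ℂ ≃+* ℂ) (b : ℕ) (A₂ : Type) [Ring A₂] [Algebra ℂ A₂] [FiniteDimensional ℂ A₂]
      (u₂ : Tow (Module.End ℂ (Mt r)) b A₂), Module.finrank ℂ (A₁ × A₂) ≤ D → 0 < b →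
      (∀ x, QU (σ x) → (σ x ^ l).trace = τ (σ x ^ b).trace) →
      b ≠ 1 ∧ ∀ c, ∀ δ ∈ AdW σ W c, τ δ ∈ AdS σ c := fun τ b A₂ _ _ _ u₂ hA hb h => by
    obtain ⟨x, y, N, k1, k2, k3, ⟨z, k4, k5⟩, k6⟩ := escP h0 hall hg P hP
      (fun e => hPs 1 e ⟨1, by rw [map_one, one_smul]⟩) hPa ho hk hA
      ((u₁.P.comp (AdR σ)).prod (u₂.P.comp (AdR (tw τ σ)))) (Q := fun x => QU (σ x))
      (fun γ x hx => QU.of_isConj (a := σ.toHomUnits _) (b := σ.toHomUnits x)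
        (σ.toHomUnits.map_isConj (isConj_iff.2 ⟨γ, rfl⟩).symm) hx) hp
    obtain ⟨F₁, hF₁⟩ := u₁.ev (Mt r) (LinearMap.mulLeft ℂ (σ x) ∘ₗ LinearMap.applyₗ (σ y))
    obtain ⟨F₂, hF₂⟩ := u₂.ev (Mt r)
      (LinearMap.mulLeft ℂ ((σ x).map τ) ∘ₗ LinearMap.applyₗ ((σ y).map τ))
    have e : ∀ w, ((u₁.P.comp (AdR σ)).prod (u₂.P.comp (AdR (tw τ σ)))) w ∈ LinearMap.eqLocus
        (traceLinearMap _ ℂ ℂ ∘ₗ F₁ ∘ₗ LinearMap.fst ℂ _ _)
        (traceLinearMap _ ℂ ℂ ∘ₗ F₂ ∘ₗ LinearMap.snd ℂ _ _) ↔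
        ((σ x * AdR σ w (σ y)) ^ l).trace = τ ((σ x * AdR σ w (σ y)) ^ b).trace := fun w => by
      change (F₁ (u₁.P _)).trace = (F₂ (u₂.P _)).trace ↔ _
      rw [hF₁, hF₂, ← tr_tw, Matrix.map_mul, ← AdR_tw]
      rfl
    refine key hi hd hT τ (by omega) hb N ⟨z, k4, hPs z k5⟩ (ht x y k1 k2)
      (fun w hw => (e w).1 (k6 _ (fun w hw => (e w).2 ?_) w hw)) hG
    have := h _ hw
    rwa [map_mul, map_mul, map_mul, ← AdR_apply] at this
  refine arith hd hT.rat hl (by omega) fun τ b hb => ?_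
  rcases hb with rfl | rfl
  · exact main τ 1 A₀ u₀ (by omega) one_pos
  · exact main τ b A₁ u₁ (by omega) hl.pos

end Pool.Agent.GR.OP
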