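import Pool.Agent.Lib.MP_aa40d3_nt.MG.Defs

/-! Logarithms of the semisimple part with respect to an additive character. -/

open Polynomial

namespace Pool.Agent.GR.OP

variable {A B : Type} [Ring A] [Algebra ℂ A] [Ring B] [Algebra ℂ B] {v : ℂ → ℂ}

/-- An additive character of the non-zero complex numbers. -/
def Chr (v : ℂ → ℂ) : Prop := ∀ a b, a ≠ 0 → b ≠ 0 → v (a * b) = v a + v b

theorem Chr.one (hv : Chr v) : v 1 = 0 := by
  have := hv 1 1 one_ne_zero one_ne_zero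
  rw [mul_one] at this
  exact left_eq_add.1 this

theorem Chr.inv (hv : Chr v) {a : ℂ} (ha : a ≠ 0) : v a⁻¹ = - v a := by
  have := hv a a⁻¹ ha (inv_ne_zero ha)
  rw [mul_inv_cancel₀ ha, hv.one] at this
  exact eq_neg_of_add_eq_zero_right this.symm

/-- `D` acts as `v μ` on the generalised eigenvectors of `T` for `μ`. -/
def Lg (v : ℂ → ℂ) (T D : A) : Prop :=
  ∃ (ι : Type) (_ : Fintype ι) (e : ι → A) (c : ι → ℂ) (K : ℕ), ∑ i, e i = 1 ∧
    ∀ i, c i ≠ 0 ∧ (T - c i • 1) ^ K * e i = 0 ∧ D * e i = v (c i) • e i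

theorem interp {ι : Type} [Finite ι] (c : ι → ℂ) (K : ℕ) (φ : ℂ → ℂ) :
    ∃ q : ℂ[X], ∀ i, (X - C (c i)) ^ K ∣ q - C (φ (c i)) := by
  have : Finite (Set.range c) := (Set.finite_range c).to_subtype
  obtain ⟨q, hq⟩ := Ideal.exists_forall_sub_mem_ideal
    (I := fun μ : Set.range c => Ideal.span {(X - C μ.1 : ℂ[X]) ^ K})
    (fun μ ν h => (Ideal.isCoprime_span_singleton_iff _ _).2
      (pairwise_coprime_X_sub_C Subtype.val_injective h).pow) fun μ => C (φ μ.1)
  exact ⟨q, fun i => Ideal.mem_span_singleton.1 (hq ⟨c i, i, rfl⟩)⟩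

theorem aeval_gen {T e : A} {c a : ℂ} {K : ℕ} {q : ℂ[X]} (h : (T - c • 1) ^ K * e = 0)
    (hq : (X - C c) ^ K ∣ q - C a) : aeval T q * e = a • e := by
  obtain ⟨s, hs⟩ := hq
  rw [eq_add_of_sub_eq hs, mul_comm, map_add, map_mul, map_pow, map_sub, aeval_X, aeval_C, aeval_C,
    add_mul, mul_assoc, Algebra.algebraMap_eq_smul_one, h, mul_zero, zero_add,
    Algebra.algebraMap_eq_smul_one, smul_mul_assoc, one_mul]

theorem sum_aeval {ι : Type} [Fintype ι] {T : A} {e : ι → A} {c : ι → ℂ} {K : ℕ}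
    (h1 : ∑ i, e i = 1) (h2 : ∀ i, (T - c i • 1) ^ K * e i = 0) (φ : ℂ → ℂ) :
    ∃ q : ℂ[X], aeval T q = ∑ i, φ (c i) • e i := by
  obtain ⟨q, hq⟩ := interp c K φ
  refine ⟨q, ?_⟩
  rw [← mul_one (aeval T q), ← h1, Finset.mul_sum]
  exact Finset.sum_congr rfl fun i _ => aeval_gen (h2 i) (hq i)

theorem Lg.poly {T D : A} (h : Lg v T D) : ∃ q : ℂ[X], D = aeval T q := by
  obtain ⟨ι, _, e, c, K, h1, h2⟩ := h
  obtain ⟨q, hq⟩ := sum_aeval h1 (fun i => (h2 i).2.1) v
  refine ⟨q, ?_⟩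
  rw [hq, ← mul_one D, ← h1, Finset.mul_sum]
  exact Finset.sum_congr rfl fun i _ => (h2 i).2.2

theorem comm_aeval {T z : A} (h : Commute z T) (q : ℂ[X]) : Commute z (aeval T q) := by
  induction q using Polynomial.induction_on' with
  | add p q hp hq => rw [map_add]; exact hp.add_right hq
  | monomial n a =>
    rw [aeval_monomial]
    exact (Algebra.commute_algebraMap_right a z).mul_right (h.pow_right n)

theorem Lg.comm {T D z : A} (h : Lg v T D) (hz : Commute z T) : Commute z D := by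
  obtain ⟨q, rfl⟩ := h.poly
  exact comm_aeval hz q

/-- The members of the family may be taken in the bicommutant. -/
theorem Lg.canon {T D : A} (h : Lg v T D) :
    ∃ (ι : Type) (_ : Fintype ι) (e : ι → A) (c : ι → ℂ) (K : ℕ), ∑ i, e i = 1 ∧
      ∀ i, c i ≠ 0 ∧ (T - c i • 1) ^ K * e i = 0 ∧ D * e i = v (c i) • e i ∧
        ∀ z, Commute z T → Commute z (e i) := by
  classical
  obtain ⟨ι, _, e, c, K, h1, h2⟩ := h
  refine ⟨Finset.univ.image c, inferInstance,
    fun μ => ∑ i, (if c i = μ.1 then (1 : ℂ) else 0) • e i, Subtype.val, K, ?_, fun μ => ⟨?_, ?_, ?_,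
      fun z hz => ?_⟩⟩
  · rw [Finset.sum_comm, ← h1]
    refine Finset.sum_congr rfl fun i _ => ?_
    rw [← Finset.sum_smul, Finset.sum_coe_sort (Finset.univ.image c)
      fun μ => if c i = μ then (1 : ℂ) else 0]
    simp
  · obtain ⟨i, -, hi⟩ := Finset.mem_image.1 μ.2
    exact hi ▸ (h2 i).1
  · rw [Finset.mul_sum]
    refine Finset.sum_eq_zero fun i _ => ?_
    split_ifs with hi
    · rw [one_smul, ← hi, (h2 i).2.1]
    · rw [zero_smul, mul_zero]
  · rw [Finset.mul_sum, Finset.smul_sum]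
    refine Finset.sum_congr rfl fun i _ => ?_
    split_ifs with hi
    · rw [one_smul, ← hi, (h2 i).2.2]
    · rw [zero_smul, mul_zero, smul_zero]
  · obtain ⟨q, hq⟩ := sum_aeval h1 (fun i => (h2 i).2.1) fun a => if a = μ.1 then 1 else 0
    exact (comm_aeval hz q).trans (congrArg (· * z) hq) |> (congrArg (z * ·) hq).symm.trans

theorem Lg.one (hv : Chr v) : Lg v (1 : A) 0 :=
  ⟨Unit, inferInstance, fun _ => 1, fun _ => 1, 1, by simp, fun _ => ⟨one_ne_zero, by simp, by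
    simp [hv.one]⟩⟩

theorem Lg.map (φ : A →ₐ[ℂ] B) {T D : A} (h : Lg v T D) : Lg v (φ T) (φ D) := by
  obtain ⟨ι, _, e, c, K, h1, h2⟩ := h
  refine ⟨ι, inferInstance, fun i => φ (e i), c, K, by rw [← map_sum, h1, map_one],
    fun i => ⟨(h2 i).1, ?_, by rw [← map_mul, (h2 i).2.2, map_smul]⟩⟩
  have := congrArg φ (h2 i).2.1
  rwa [map_mul, map_pow, map_sub, map_smul, map_one, map_zero] at this

omit [Algebra ℂ A] in
theorem pow_kill {a b u : A} (h : Commute a b) {K K' : ℕ} (ha : a ^ K * u = 0) (hb : b ^ K' * u = 0) :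
    (a + b) ^ (K + K') * u = 0 := by
  rw [h.add_pow', Finset.sum_mul]
  refine Finset.sum_eq_zero fun p hp => ?_
  have hp' := Finset.HasAntidiagonal.mem_antidiagonal.1 hp
  rw [smul_mul_assoc]
  rcases le_or_gt K p.1 with k | k
  · obtain ⟨j, hj⟩ := Nat.exists_eq_add_of_le' k
    rw [(h.pow_pow _ _).eq, hj, pow_add, mul_assoc, mul_assoc, ha, mul_zero, mul_zero, smul_zero]
  · obtain ⟨j, hj⟩ := Nat.exists_eq_add_of_le' (show K' ≤ p.2 by omega)
    rw [hj, pow_add, mul_assoc, mul_assoc, hb, mul_zero, mul_zero, smul_zero]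

theorem Lg.mul (hv : Chr v) {T D T' D' : A} (hc : Commute T T') (h : Lg v T D) (h' : Lg v T' D') :
    Lg v (T * T') (D + D') := by
  obtain ⟨ι, _, e, c, K, h1, h2⟩ := h.canon
  have hD' : ∀ i, Commute D' (e i) := fun i => (h2 i).2.2.2 _ (h'.comm hc).symm
  obtain ⟨ι', _, e', c', K', k1, k2⟩ := h'
  refine ⟨ι × ι', inferInstance, fun p => e p.1 * e' p.2, fun p => c p.1 * c' p.2, K + K', ?_,
    fun p => ⟨mul_ne_zero (h2 _).1 (k2 _).1, ?_, ?_⟩⟩
  · rw [Fintype.sum_prod_type, ← Finset.sum_mul_sum, h1, k1, mul_one]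
  · have c1 : Commute (T - c p.1 • 1) T' := hc.sub_left ((Commute.one_left _).smul_left _)
    have c2 : Commute (T' - c' p.2 • 1) T := hc.symm.sub_left ((Commute.one_left _).smul_left _)
    have c3 : Commute (T - c p.1 • 1) (T' - c' p.2 • 1) :=
      c1.sub_right ((Commute.one_right _).smul_right _)
    have c4 : Commute T' (T' - c' p.2 • 1) :=
      (Commute.refl _).sub_right ((Commute.one_right _).smul_right _)
    rw [show T * T' - (c p.1 * c' p.2) • (1 : A) =
      T' * (T - c p.1 • 1) + c p.1 • (T' - c' p.2 • 1) by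
        rw [hc.eq, mul_sub, mul_smul_comm, mul_one, smul_sub, smul_smul]
        abel]
    refine pow_kill ((c4.mul_left c3).smul_right _) ?_ ?_
    · rw [c1.symm.mul_pow, mul_assoc, ← mul_assoc _ (e p.1), (h2 _).2.1, zero_mul, mul_zero]
    · rw [_root_.smul_pow, smul_mul_assoc, ← mul_assoc, (((h2 p.1).2.2.2 _ c2).pow_left K').eq, mul_assoc,
        (k2 _).2.1, mul_zero, smul_zero]
  · rw [add_mul, ← mul_assoc, (h2 _).2.2.1, ← mul_assoc, (hD' _).eq, mul_assoc, (k2 _).2.2,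
      hv _ _ (h2 _).1 (k2 _).1, add_smul, smul_mul_assoc, mul_smul_comm]

theorem Lg.prod {T D : A} {T' D' : B} (h : Lg v T D) (h' : Lg v T' D') :
    Lg v (T, T') (D, D') := by
  obtain ⟨ι, _, e, c, K, h1, h2⟩ := h
  obtain ⟨ι', _, e', c', K', k1, k2⟩ := h'
  refine ⟨ι ⊕ ι', inferInstance, Sum.elim (fun i => (e i, 0)) fun i => (0, e' i), Sum.elim c c',
    K + K', ?_, ?_⟩
  · rw [Fintype.sum_sum_type]
    refine Prod.ext ?_ ?_ <;> simp [Prod.fst_sum, Prod.snd_sum, h1, k1]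
  · rintro (i | i)
    · refine ⟨(h2 i).1, Prod.ext ?_ (by simp), Prod.ext (h2 i).2.2 (by simp)⟩
      change (T - c i • 1) ^ (K + K') * e i = 0
      rw [add_comm, pow_add, mul_assoc, (h2 i).2.1, mul_zero]
    · refine ⟨(k2 i).1, Prod.ext (by simp) ?_, Prod.ext (by simp) (k2 i).2.2⟩
      change (T' - c' i • 1) ^ (K + K') * e' i = 0
      rw [pow_add, mul_assoc, (k2 i).2.1, mul_zero]

/-- The inverse, in the opposite algebra. -/
theorem Lg.opinv (hv : Chr v) {T T' D : A} (hT : T * T' = 1) (hT' : T' * T = 1) (h : Lg v T D) :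
    Lg v (MulOpposite.op T') (MulOpposite.op (-D)) := by
  obtain ⟨ι, _, e, c, K, h1, h2⟩ := h.canon
  refine ⟨ι, inferInstance, fun i => MulOpposite.op (e i), fun i => (c i)⁻¹, K,
    by rw [← Finset.op_sum, h1, MulOpposite.op_one], fun i => ⟨inv_ne_zero (h2 i).1, ?_, ?_⟩⟩
  · have c0 : Commute T' T := hT'.trans hT.symm
    have c1 : Commute T' (T - c i • 1) := c0.sub_right ((Commute.one_right _).smul_right _)
    have c2 : Commute (T' - (c i)⁻¹ • 1) T := c0.sub_left ((Commute.one_left _).smul_left _)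
    have e1 : T' - (c i)⁻¹ • (1 : A) = (-(c i)⁻¹) • (T' * (T - c i • 1)) := by
      rw [mul_sub, hT', mul_smul_comm, mul_one, smul_sub, smul_smul, neg_mul,
        inv_mul_cancel₀ (h2 i).1]
      module
    rw [← MulOpposite.op_one, ← MulOpposite.op_smul, ← MulOpposite.op_sub, ← MulOpposite.op_pow,
      ← MulOpposite.op_mul, ← (((h2 i).2.2.2 _ c2).pow_left K).eq, e1, _root_.smul_pow, c1.mul_pow,
      smul_mul_assoc, mul_assoc, (h2 i).2.1, mul_zero, smul_zero, MulOpposite.op_zero]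
  · rw [← MulOpposite.op_mul, ← MulOpposite.op_smul, mul_neg,
      ← ((h2 i).2.2.2 _ (h.comm (Commute.refl T)).symm).eq, (h2 i).2.2.1, hv.inv (h2 i).1, neg_smul]

/-- On an eigenvector. -/
theorem Lg.eig {T D z : A} {μ : ℂ} (h : Lg v T D) (hz : T * z = μ • z) : D * z = v μ • z := by
  obtain ⟨ι, _, e, c, K, h1, h2⟩ := h.canon
  rw [← one_mul z, ← h1, Finset.sum_mul, Finset.mul_sum, Finset.smul_sum]
  refine Finset.sum_congr rfl fun i _ => ?_
  rw [← mul_assoc, (h2 i).2.2.1, smul_mul_assoc]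
  by_cases hi : c i = μ
  · rw [hi]
  have c1 : Commute (T - c i • 1) T := (Commute.refl _).sub_left ((Commute.one_left _).smul_left _)
  have h3 : ∀ k : ℕ, (T - c i • 1) ^ k * z = (μ - c i) ^ k • z := fun k => by
    induction k with
    | zero => simp
    | succ k ih =>
      rw [pow_succ, mul_assoc, sub_mul, hz, smul_mul_assoc, one_mul, ← sub_smul, mul_smul_comm, ih,
        smul_smul, pow_succ']
  have h4 := congrArg (· * z) (h2 i).2.1
  simp only [zero_mul] at h4
  rw [(((h2 i).2.2.2 _ c1).pow_left K).eq, mul_assoc, h3, mul_smul_comm] at h4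
  rw [(smul_eq_zero.1 h4).resolve_left (pow_ne_zero _ (sub_ne_zero.2 (Ne.symm hi))), smul_zero,
    smul_zero]

theorem exists_lg [FiniteDimensional ℂ A] (v : ℂ → ℂ) {T T' : A} (hT : T' * T = 1) :
    ∃ D, Lg v T D := by
  classical
  have h1 : (1 : A) ∈ ⨆ μ, Module.End.maxGenEigenspace (Algebra.lmul ℂ A T) μ := by
    rw [Module.End.iSup_maxGenEigenspace_eq_top]
    trivial
  obtain ⟨f, hf, hs⟩ := (Submodule.mem_iSup_iff_exists_finsupp _ _).1 h1
  have h2 : ∀ μ, (T - μ • 1) ^ Module.finrank ℂ A * f μ = 0 := fun μ => by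
    have h3 := hf μ
    rw [Module.End.maxGenEigenspace_eq_genEigenspace_finrank, Module.End.mem_genEigenspace_nat,
      LinearMap.mem_ker, ← map_one (Algebra.lmul ℂ A), ← map_smul, ← map_sub, ← map_pow] at h3
    exact h3
  have h3 : ∑ μ : f.support, f μ = 1 := by
    rw [Finset.sum_coe_sort f.support fun μ => f μ]
    exact hs
  obtain ⟨q, hq⟩ := interp (fun μ : f.support => μ.1) (Module.finrank ℂ A) v
  refine ⟨aeval T q, f.support, inferInstance, fun μ => f μ, Subtype.val, _, h3,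
    fun μ => ⟨fun h => Finsupp.mem_support_iff.1 μ.2 ?_, h2 μ, aeval_gen (h2 μ) (hq μ)⟩⟩
  have h4 := h2 μ
  rw [h, zero_smul, sub_zero] at h4
  have h5 : ∀ k : ℕ, T' ^ k * T ^ k = 1 := fun k => by
    induction k with
    | zero => simp
    | succ k ih => rw [pow_succ, pow_succ', mul_assoc, ← mul_assoc T', hT, one_mul, ih]
  rw [h, ← one_mul (f 0), ← h5 (Module.finrank ℂ A), mul_assoc, h4, mul_zero]

end Pool.Agent.GR.OP
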