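import Pool.Agent.Lib.MP_aa40d3_nt.OP.Grp

/-! The traceless matrices. -/

open Matrix

namespace Pool.Agent.GR.OP

variable {r : ℕ} {G : Type} [Group G] {σ : G →* Mt r}

/-- Invariant spaces of matrices are scalar or contain the traceless matrices. -/
def AdI (σ : G →* Mt r) : Prop :=
  ∀ Z : Submodule ℂ (Mt r), (∀ γ, ∀ z ∈ Z, σ γ * z * σ γ⁻¹ ∈ Z) →
    (∀ z ∈ Z, Scl z) ∨ ∀ z : Mt r, z.trace = 0 → z ∈ Z

/-- The traceless matrices. -/
noncomputable def slW (r : ℕ) : Submodule ℂ (Mt r) := LinearMap.ker (traceLinearMap _ ℂ ℂ)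

theorem mem_slW {z : Mt r} : z ∈ slW r ↔ z.trace = 0 := Iff.rfl

theorem tr_AdR (γ : G) (z : Mt r) : (AdR σ γ z).trace = z.trace := by
  rw [AdR_apply, trace_mul_cycle, rep_inv_mul, one_mul]

theorem sub_mem_slW [NeZero r] (z : Mt r) : z - (z.trace / r) • (1 : Mt r) ∈ slW r := by
  rw [mem_slW, trace_sub, trace_smul, trace_one, Fintype.card_fin, smul_eq_mul,
    div_mul_cancel₀ _ (Nat.cast_ne_zero.2 (NeZero.ne r)), sub_self]

theorem adL_one : adL (1 : Mt r) = 0 := LinearMap.ext fun z => by simp [adL_apply]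

theorem AdI.typ [NeZero r] (h : AdI σ) : Typ σ (slW r) := by
  refine ⟨⟨fun γ z hz => (tr_AdR γ z).trans hz, fun U hU hi => ?_⟩, fun v _ w X _ =>
    ⟨_, sub_mem_slW X, by rw [map_sub, map_smul, adL_one, smul_zero, sub_zero]⟩,
    fun E _ k hk => ⟨k + 1, LinearMap.ext fun z => ?_⟩, fun c μ hμ ν hν M hM => ?_, fun B hB => ?_⟩
  · refine (h U fun γ z hz => AdR_apply σ γ z ▸ hi γ z hz).imp
      (fun k => eq_bot_iff.2 fun z hz => ?_) fun k => le_antisymm hU k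
    obtain ⟨c, rfl⟩ := k z hz
    have h1 := mem_slW.1 (hU hz)
    rw [trace_smul, trace_one, Fintype.card_fin, smul_eq_mul] at h1
    rw [(mul_eq_zero.1 h1).resolve_right (Nat.cast_ne_zero.2 (NeZero.ne r)), zero_smul]
    exact Submodule.zero_mem _
  · have h1 := hk _ (sub_mem_slW z)
    rwa [map_sub, map_smul, pow_succ, Module.End.mul_apply _ _ 1, adL_apply, mul_one, one_mul,
      sub_self, map_zero, smul_zero, sub_zero, ← pow_succ] at h1
  · obtain ⟨z, hz, e⟩ := (adS_ratio σ c hμ hν).2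
    rw [← AdR_apply] at e
    refine ⟨μ / ν, ⟨z, ?_, hz, e⟩, hM⟩
    have h1 := tr_AdR (σ := σ) c z
    rw [e, trace_smul, smul_eq_mul] at h1
    by_contra h2
    exact hM (by rw [(mul_eq_right₀ h2).1 h1, one_pow])
  · refine (h (Subalgebra.toSubmodule B) hB).imp_right fun k => eq_top_iff.2 fun z _ => ?_
    rw [← sub_add_cancel z ((z.trace / r) • (1 : Mt r))]
    exact B.add_mem (k _ (sub_mem_slW z)) (B.smul_mem B.one_mem _)

theorem exists_vec {x y : Mt r} (hx : ¬ Scl x) (hy : ¬ Scl y) :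
    ∃ u : Fin r → ℂ, x *ᵥ u ∉ ℂ ∙ u ∧ y *ᵥ u ∉ ℂ ∙ u := by
  have k1 : ∀ z : Mt r, ¬ Scl z → ∀ μ, Module.End.eigenspace (toLin' z) μ ≠ ⊤ := fun z hz μ e =>
    hz ⟨μ, Matrix.ext_iff_mulVec.2 fun v => by
      rw [smul_mulVec, one_mulVec]
      exact Module.End.mem_eigenspace_iff.1 (e.ge trivial)⟩
  have f1 := (Module.End.finite_hasEigenvalue (toLin' x)).insert 0
  have f2 := (Module.End.finite_hasEigenvalue (toLin' y)).insert 0
  have := f1.to_subtype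
  have := f2.to_subtype
  obtain ⟨u, hu⟩ := Submodule.exists_forall_notMem_of_forall_ne_top
    (Sum.elim (fun μ : (insert 0 {μ | Module.End.HasEigenvalue (toLin' x) μ} : Set ℂ) =>
      Module.End.eigenspace (toLin' x) μ)
      fun μ : (insert 0 {μ | Module.End.HasEigenvalue (toLin' y) μ} : Set ℂ) =>
        Module.End.eigenspace (toLin' y) μ) (by rintro (μ | μ); exacts [k1 x hx _, k1 y hy _])
  have h0 : u ≠ 0 := fun e => hu (Sum.inl ⟨0, Or.inl rfl⟩) (e ▸ Submodule.zero_mem _)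
  refine ⟨u, fun h => ?_, fun h => ?_⟩ <;> obtain ⟨μ, e⟩ := Submodule.mem_span_singleton.1 h
  · have h1 : u ∈ Module.End.eigenspace (toLin' x) μ := Module.End.mem_eigenspace_iff.2 e.symm
    exact hu (Sum.inl ⟨μ, Or.inr (Module.End.hasEigenvalue_of_hasEigenvector ⟨h1, h0⟩)⟩) h1
  · have h1 : u ∈ Module.End.eigenspace (toLin' y) μ := Module.End.mem_eigenspace_iff.2 e.symm
    exact hu (Sum.inr ⟨μ, Or.inr (Module.End.hasEigenvalue_of_hasEigenvector ⟨h1, h0⟩)⟩) h1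

theorem exists_form {u a b : Fin r → ℂ} (ha : a ∉ ℂ ∙ u) (hb : b ∉ ℂ ∙ u) :
    ∃ f : Fin r → ℂ, f ⬝ᵥ u = 0 ∧ f ⬝ᵥ a ≠ 0 ∧ f ⬝ᵥ b ≠ 0 := by
  have k : ∀ c ∉ ℂ ∙ u, ∃ f : Fin r → ℂ, f ⬝ᵥ u = 0 ∧ f ⬝ᵥ c ≠ 0 := fun c hc => by
    obtain ⟨φ, h1, h2⟩ := Submodule.exists_le_ker_of_notMem hc
    obtain ⟨f, rfl⟩ := (dotProductEquiv ℂ (Fin r)).surjective φ
    exact ⟨f, h2 (Submodule.mem_span_singleton_self u), h1⟩
  obtain ⟨f, f1, f2⟩ := k a ha
  obtain ⟨g, g1, g2⟩ := k b hb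
  by_cases f3 : f ⬝ᵥ b = 0
  · by_cases g3 : g ⬝ᵥ a = 0
    · exact ⟨f + g, by simp [f1, g1], by simpa [g3], by simpa [f3]⟩
    · exact ⟨g, g1, g3, g2⟩
  · exact ⟨f, f1, f2, f3⟩

theorem test_rank {W : Submodule ℂ (Mt r)} {x y : Mt r} {u f : Fin r → ℂ}
    (hW : vecMulVec u f ∈ W) (h0 : f ⬝ᵥ u = 0) (hx : f ⬝ᵥ x *ᵥ u ≠ 0) (hy : f ⬝ᵥ y *ᵥ u ≠ 0) :
    Test W x y := by
  have e0 : ∀ z : Mt r, vecMulVec u f * z * vecMulVec u f = (f ⬝ᵥ z *ᵥ u) • vecMulVec u f :=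
    fun z => by
      rw [mul_assoc, mul_vecMulVec, vecMulVec_mul_vecMulVec, vecMulVec_smul]
  have e1 : vecMulVec u f * vecMulVec u f = 0 := by
    rw [vecMulVec_mul_vecMulVec, h0, zero_smul, vecMulVec_zero]
  have e2 : ∀ z, (adL (vecMulVec u f) ^ 2) z = (-2 * f ⬝ᵥ z *ᵥ u) • vecMulVec u f := fun z => by
    rw [pow_two, Module.End.mul_apply, adL_apply, adL_apply, mul_sub, sub_mul, ← mul_assoc, e1,
      ← mul_assoc, mul_assoc z, e1, e0, zero_mul, mul_zero]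
    module
  refine ⟨_, hW, 2, two_pos, LinearMap.ext fun z => ?_, fun m hm => ?_⟩
  · rw [pow_succ', Module.End.mul_apply, e2, map_smul, adL_apply, sub_self, smul_zero]
    rfl
  · obtain ⟨m, rfl⟩ := Nat.exists_eq_succ_of_ne_zero hm.ne'
    have e3 : (x * vecMulVec u f) ^ (m + 1) = (f ⬝ᵥ x *ᵥ u) ^ m • (x * vecMulVec u f) := by
      induction m with
      | zero => simp
      | succ m ih =>
        rw [pow_succ, ih (Nat.succ_pos _), smul_mul_assoc, mul_assoc, ← mul_assoc (vecMulVec u f),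
          e0, mul_smul_comm, smul_smul, pow_succ]
    rw [e2, mul_smul_comm, smul_pow, e3, trace_smul, trace_smul, mul_vecMulVec, trace_vecMulVec,
      dotProduct_comm (x *ᵥ u)]
    exact mul_ne_zero (pow_ne_zero _ (mul_ne_zero (by norm_num) hy))
      (mul_ne_zero (pow_ne_zero _ hx) hx)

theorem test_sl {x y : Mt r} (hx : ¬ Scl x) (hy : ¬ Scl y) : Test (slW r) x y := by
  obtain ⟨u, h1, h2⟩ := exists_vec hx hy
  obtain ⟨f, h3, h4, h5⟩ := exists_form h1 h2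
  exact test_rank (by rw [mem_slW, trace_vecMulVec, dotProduct_comm, h3]) h3 h4 h5

end Pool.Agent.GR.OP
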