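import Pool.Agent.Lib.MP_aa40d3_nt.OP.Log

/-! Tensor powers of an algebra and the derivative of the power map. -/

open TensorProduct

namespace Pool.Agent.GR.OP

variable {A B : Type} [Ring A] [Algebra ℂ A] [Ring B] [Algebra ℂ B]

/-- The `m`-th tensor power `P` and the sum `d` over the slots. -/
structure Tow (B : Type) [Ring B] [Algebra ℂ B] (m : ℕ) (A : Type) [Ring A] [Algebra ℂ A] where
  P : B →* A
  d : B →ₗ[ℂ] A
  lg : ∀ v, Chr v → ∀ T D, Lg v T D → Lg v (P T) (d D)
  cj : ∀ T T' a, T * T' = 1 → P T * d a * P T' = d (T * a * T')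
  nil : ∀ a j, a ^ (j + 1) = 0 →
    d a ^ (j * m + 1) = 0 ∧ ∃ c : ℂ, c ≠ 0 ∧ d a ^ (j * m) = c • P (a ^ j)
  ev : ∀ (C : Type) [Ring C] [Algebra ℂ C] (φ : B →ₗ[ℂ] C),
    ∃ F : A →ₗ[ℂ] C, ∀ T, F (P T) = φ T ^ m

theorem top_term {a b : A} (h : Commute a b) {j k : ℕ} (ha : a ^ (j + 1) = 0)
    (hb : b ^ (k + 1) = 0) : (a + b) ^ (j + k) = ((j + k).choose j : ℂ) • (a ^ j * b ^ k) := by
  rw [h.add_pow', Finset.sum_eq_single (j, k), Nat.cast_smul_eq_nsmul]
  · intro p hp hne
    have hp' := Finset.HasAntidiagonal.mem_antidiagonal.1 hp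
    rcases lt_trichotomy p.1 j with e | e | e
    · rw [pow_eq_zero_of_le (show k + 1 ≤ p.2 by omega) hb, mul_zero, smul_zero]
    · exact absurd (Prod.ext e (by omega)) hne
    · rw [pow_eq_zero_of_le (show j + 1 ≤ p.1 by omega) ha, zero_mul, smul_zero]
  · exact fun h => absurd (by simp) h

theorem exists_tow (B : Type) [Ring B] [Algebra ℂ B] [FiniteDimensional ℂ B] (m : ℕ) :
    ∃ (A : Type) (_ : Ring A) (_ : Algebra ℂ A) (_ : FiniteDimensional ℂ A),
      Nonempty (Tow B m A) := by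
  induction m with
  | zero =>
    exact ⟨ℂ, inferInstance, inferInstance, inferInstance, ⟨1, 0, fun v hv T D _ => Lg.one hv,
      fun T T' a _ => by simp, fun a j _ => ⟨by simp, 1, one_ne_zero, by simp⟩,
      fun C _ _ φ => ⟨Algebra.linearMap ℂ C, fun T => by simp⟩⟩⟩
  | succ m ih =>
    obtain ⟨A, _, _, _, ⟨w⟩⟩ := ih
    let l : B →ₐ[ℂ] B ⊗[ℂ] A := Algebra.TensorProduct.includeLeft
    let r : A →ₐ[ℂ] B ⊗[ℂ] A := Algebra.TensorProduct.includeRight
    have hc : ∀ x y, Commute (l x) (r y) := fun x y => by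
      simp [Commute, SemiconjBy, l, r]
    have hm : ∀ x y, l x * r y = x ⊗ₜ y := fun x y => by simp [l, r]
    refine ⟨B ⊗[ℂ] A, inferInstance, inferInstance, inferInstance, ⟨
      { toFun := fun x => l x * r (w.P x)
        map_one' := by rw [map_one, map_one, map_one, mul_one]
        map_mul' := fun x y => by
          rw [hm, hm, hm, map_mul, Algebra.TensorProduct.tmul_mul_tmul] },
      l.toLinearMap + r.toLinearMap ∘ₗ w.d,
      fun v hv T D h => (h.map l).mul hv (hc _ _) ((w.lg v hv T D h).map r),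
      fun T T' a h => ?_, fun a j h => ?_, fun C _ _ φ => ?_⟩⟩
    · change l T * r (w.P T) * (l a + r (w.d a)) * (l T' * r (w.P T')) =
        l (T * a * T') + r (w.d (T * a * T'))
      rw [← w.cj T T' a h]
      have h1 : w.P T * w.P T' = 1 := by rw [← map_mul, h, map_one]
      simp [l, r, mul_add, add_mul, h, h1]
    · obtain ⟨h1, c, hc0, h2⟩ := w.nil a j h
      have k1 : l a ^ (j + 1) = 0 := by rw [← map_pow, h, map_zero]
      have k2 : r (w.d a) ^ (j * m + 1) = 0 := by rw [← map_pow, h1, map_zero]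
      refine ⟨(hc _ _).add_pow_eq_zero_of_add_le_succ_of_pow_eq_zero k1 k2 (by
        rw [mul_add]; omega), ((j + j * m).choose j : ℂ) * c, mul_ne_zero
          (Nat.cast_ne_zero.2 (Nat.choose_pos (Nat.le_add_right _ _)).ne') hc0, ?_⟩
      change (l a + r (w.d a)) ^ (j * (m + 1)) = _ • (l (a ^ j) * r (w.P (a ^ j)))
      rw [show j * (m + 1) = j + j * m by ring, top_term (hc _ _) k1 k2, ← map_pow r, h2, map_smul,
        mul_smul_comm, smul_smul, map_pow l]
    · obtain ⟨F, hF⟩ := w.ev C φ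
      refine ⟨LinearMap.mul' ℂ C ∘ₗ TensorProduct.map φ F, fun T => ?_⟩
      change LinearMap.mul' ℂ C (TensorProduct.map φ F (l T * r (w.P T))) = _
      rw [hm, TensorProduct.map_tmul, LinearMap.mul'_apply, hF, pow_succ']

end Pool.Agent.GR.OP
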