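import Pool.Agent.Lib.MP_aa40d3_nt.OP.Gou

/-! Transport along an automorphism of the complex numbers. -/

open Matrix

namespace Pool.Agent.GR.OP

variable {r : ℕ} {G : Type} [Group G]

/-- The logarithms lie in the space, up to scalars. -/
def LogW (σ : G →* Mt r) (W : Submodule ℂ (Mt r)) : Prop :=
  ∀ v, Chr v → ∀ w X, Lg v (σ w) X → ∃ X₀ ∈ W, adL X = adL X₀

/-- The conjugate representation. -/
noncomputable def tw (τ : ℂ ≃+* ℂ) (σ : G →* Mt r) : G →* Mt r :=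
  (τ.toRingHom.mapMatrix (m := Fin r)).toMonoidHom.comp σ

theorem tw_apply (τ : ℂ ≃+* ℂ) (σ : G →* Mt r) (γ : G) : tw τ σ γ = (σ γ).map τ := rfl

theorem mp_mp (τ : ℂ ≃+* ℂ) (z : Mt r) : (z.map τ).map τ.symm = z := by
  ext i j
  simp

theorem mp_mp' (τ : ℂ ≃+* ℂ) (z : Mt r) : (z.map τ.symm).map τ = z := mp_mp τ.symm z

theorem mp_smul (τ : ℂ ≃+* ℂ) (c : ℂ) (z : Mt r) : (c • z).map τ = τ c • z.map τ := by
  ext i j
  simp

/-- The conjugate space. -/
def twW (τ : ℂ ≃+* ℂ) (W : Submodule ℂ (Mt r)) : Submodule ℂ (Mt r) where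
  carrier := {z | z.map τ.symm ∈ W}
  zero_mem' := by
    change (0 : Mt r).map τ.symm ∈ W
    rw [Matrix.map_zero _ (map_zero _)]
    exact W.zero_mem
  add_mem' := fun {a b} ha hb => by
    change (a + b).map τ.symm ∈ W
    rw [Matrix.map_add _ (map_add _)]
    exact W.add_mem ha hb
  smul_mem' := fun c a ha => by
    change (c • a).map τ.symm ∈ W
    rw [mp_smul]
    exact W.smul_mem _ ha

theorem mem_twW {τ : ℂ ≃+* ℂ} {W : Submodule ℂ (Mt r)} {z : Mt r} :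
    z ∈ twW τ W ↔ z.map τ.symm ∈ W := Iff.rfl

theorem map_twW {τ : ℂ ≃+* ℂ} {W : Submodule ℂ (Mt r)} {z : Mt r} : z.map τ ∈ twW τ W ↔ z ∈ W := by
  rw [mem_twW, mp_mp]

theorem AdR_tw (τ : ℂ ≃+* ℂ) (σ : G →* Mt r) (γ : G) (z : Mt r) :
    AdR (tw τ σ) γ (z.map τ) = (AdR σ γ z).map τ := by
  rw [AdR_apply, AdR_apply, Matrix.map_mul, Matrix.map_mul, tw_apply, tw_apply]

theorem adL_tw (τ : ℂ ≃+* ℂ) (E : Mt r) (k : ℕ) (z : Mt r) :
    (adL (E.map τ) ^ k) (z.map τ) = ((adL E ^ k) z).map τ := by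
  induction k with
  | zero => rfl
  | succ k ih =>
    rw [pow_succ', pow_succ', Module.End.mul_apply, Module.End.mul_apply, ih, adL_apply, adL_apply,
      Matrix.map_sub _ (map_sub _), Matrix.map_mul, Matrix.map_mul]

theorem adL_tw0 (τ : ℂ ≃+* ℂ) {E : Mt r} {k : ℕ} (h : adL E ^ k = 0) : adL (E.map τ) ^ k = 0 :=
  LinearMap.ext fun z => by
    rw [← mp_mp' τ z, adL_tw, h, LinearMap.zero_apply, LinearMap.zero_apply,
      Matrix.map_zero _ (map_zero _)]

variable {σ : G →* Mt r} {W : Submodule ℂ (Mt r)} (τ : ℂ ≃+* ℂ)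

theorem IrW.tw (h : IrW σ W) : IrW (tw τ σ) (twW τ W) := by
  refine ⟨fun γ z hz => ?_, fun U hU hi => ?_⟩
  · rw [← mp_mp' τ z, AdR_tw, map_twW]
    exact h.1 γ _ hz
  · rcases h.2 (twW τ.symm U) (fun z hz => map_twW.1 (hU hz)) (fun γ z hz => by
      change (AdR σ γ z).map τ ∈ U
      rw [← AdR_tw]
      exact hi γ _ hz) with k | k
    · refine Or.inl (eq_bot_iff.2 fun z hz => ?_)
      have h1 : z.map τ.symm = 0 := k.le (map_twW.2 hz)
      rw [← mp_mp' τ z, h1, Matrix.map_zero _ (map_zero _)]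
      exact Submodule.zero_mem _
    · exact Or.inr (le_antisymm hU fun z hz => map_twW.1 (k.ge hz))

theorem tr_tw (z : Mt r) (m : ℕ) : ((z.map τ) ^ m).trace = τ (z ^ m).trace := by
  rw [AddMonoidHom.map_trace τ, ← RingEquiv.mapMatrix_apply, ← RingEquiv.mapMatrix_apply, map_pow]

theorem Test.tw {x y : Mt r} (h : Test W x y) : Test (twW τ W) (x.map τ) (y.map τ) := by
  obtain ⟨E, hE, j, hj, h1, h2⟩ := h
  refine ⟨E.map τ, map_twW.2 hE, j, hj, adL_tw0 τ h1, fun m hm => ?_⟩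
  rw [adL_tw, ← Matrix.map_mul, tr_tw]
  exact (map_ne_zero τ).2 (h2 m hm)

theorem NilW.tw (h : NilW W) : NilW (twW τ W) := fun E hE k hk => by
  obtain ⟨j, hj⟩ := h _ hE k fun z hz => by
    have h1 := adL_tw τ.symm E (k + 1) (z.map τ)
    rwa [mp_mp, hk _ (map_twW.2 hz), Matrix.map_zero _ (map_zero _)] at h1
  exact ⟨j, mp_mp' τ E ▸ adL_tw0 τ hj⟩

theorem LogW.tw (h : LogW σ W) : LogW (tw τ σ) (twW τ W) := fun v hv w X hX => by
  obtain ⟨ι, _, e, c, K, h1, h2⟩ := hX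
  obtain ⟨X₀, k1, k2⟩ := h (fun a => τ.symm (v (τ a))) (fun a b ha hb => by
    beta_reduce
    rw [map_mul, hv _ _ ((map_ne_zero τ).2 ha) ((map_ne_zero τ).2 hb), map_add]) w (X.map τ.symm)
    ⟨ι, inferInstance, fun i => (e i).map τ.symm, fun i => τ.symm (c i), K, by
      have := congrArg τ.symm.mapMatrix h1
      rwa [map_sum, map_one] at this, fun i => ⟨(map_ne_zero τ.symm).2 (h2 i).1, by
        have := congrArg τ.symm.mapMatrix (h2 i).2.1
        rwa [map_mul, map_pow, map_sub, map_zero, RingEquiv.mapMatrix_apply,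
          RingEquiv.mapMatrix_apply, mp_smul, Matrix.map_one _ (map_zero _) (map_one _), tw_apply,
          mp_mp] at this, by
        beta_reduce
        rw [← Matrix.map_mul, (h2 i).2.2, mp_smul, RingEquiv.apply_symm_apply]⟩⟩
  refine ⟨X₀.map τ, map_twW.2 k1, LinearMap.ext fun z => ?_⟩
  have k3 := adL_tw τ (X.map τ.symm) 1 (z.map τ.symm)
  have k4 := adL_tw τ X₀ 1 (z.map τ.symm)
  rw [pow_one, pow_one, mp_mp'] at k3 k4
  rw [mp_mp'] at k3
  rw [k3, k4, k2]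

theorem tau_surj {τ : ℂ →+* ℂ} (h : ∀ z : ℂ, (Set.range fun k : ℕ => τ^[k] z).Finite) :
    Function.Bijective τ := by
  refine ⟨τ.injective, fun z => ?_⟩
  obtain ⟨a, b, hab, e⟩ := (h z).exists_lt_map_eq_of_forall_mem (f := fun k : ℕ => τ^[k] z)
    fun k => Set.mem_range_self k
  obtain ⟨k, rfl⟩ := Nat.exists_eq_add_of_lt hab
  rw [add_assoc, Function.iterate_add_apply] at e
  exact ⟨τ^[k] z, ((τ.injective.iterate a e).trans (Function.iterate_succ_apply' τ k z)).symm⟩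

end Pool.Agent.GR.OP
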